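import Pool.Agent.Work.StdConj01.Api

/-!
# Very general fibres and varieties over a subfield

`WeilCoh.rank D X j`: the dimension of the span of the algebraic classes of codimension `j`.

`WeilCoh.GenericallyFinite π`: surjective generically finite morphisms.

`Polarization.Fibre L i`: the smooth fibres `i : U → W` of the morphisms of `W` to a curve.

`Polarization.VeryGeneralFibre C M`: `U` is a very general fibre of members of `C`.

`Polarization.GeneratedBy P`: all varieties are obtained from the varieties with the property
`P` (defined over a subfield, for instance the algebraic closure of the prime field) by taking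
very general fibres over curves and images under generically finite morphisms.

`Polarization.Closed P`: `P` is stable under products and hypersurface sections.
-/

open CategoryTheory MonoidalCategory CartesianMonoidalCategory

universe u v w x b

namespace Pool.Std

namespace WeilCoh

variable {V : Type u} [Category.{v} V] [CartesianMonoidalCategory V] {K : Type x} [Field K]
variable (D : WeilCoh.{u, v, w, x} V K)

/-- the dimension of the `K`-span of the algebraic classes of codimension `j` on `X` -/
noncomputable def rank (X : V) (j : ℕ) : ℕ := Set.finrank K (D.alg X j : Set (D.H X))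

/-- `π : X' → X` is surjective and generically finite (of degree `d ≠ 0`). -/
structure GenericallyFinite {X' X : V} (π : X' ⟶ X) : Prop where
  dim : D.dim X' = D.dim X
  int : ∃ d : ℚ, d ≠ 0 ∧ ∀ a : D.H X, D.int (D.pb π a) = (d : K) * D.int a

end WeilCoh

namespace Polarization

variable {V : Type u} [Category.{v} V] [CartesianMonoidalCategory V] {K : Type x} [Field K]
variable {D : WeilCoh.{u, v, w, x} V K} (G : Polarization.{u, v, w, x, b} D)

/-- **Fibres over a curve.**  The properties of (the embedding `i` of) a smooth fibre `U` of a
morphism of `W` to a smooth projective curve, `L` an ample line bundle on `W`.  The class `h` of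
`U` on `W` is algebraic, `h² = 0` and `∫_U i^* a = ∫_W h a`; if `h a = 0`, then `i^* a = 0`
(Deligne: invariant cycles and semisimplicity of the monodromy); and if `a` has degree
`dim W - k`, `h a = 0` and `c(L)^k a` is a multiple of `h`, then `a` is a multiple of `h` (the
relative hard Lefschetz theorem, Deligne and Beilinson-Bernstein-Deligne-Gabber). -/
structure Fibre {U W : V} (L : G.Bund W) (i : U ⟶ W) : Prop where
  dim : D.dim U + 1 = D.dim W
  cls : ∃ h ∈ D.alg W 1, h * h = 0 ∧ (∀ a : D.H W, D.int (D.pb i a) = D.int (h * a)) ∧
    (∀ a : D.H W, h * a = 0 → D.pb i a = 0) ∧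
    ∀ s k : ℕ, s + k = D.dim W → ∀ a ∈ D.deg W s, h * a = 0 →
      (∃ e : D.H W, G.c L ^ k * a = h * e) → ∃ e : D.H W, a = h * e

/-- **Very general fibres.**  `C` is a class of polarized varieties; `(U, M)` is a very general
fibre of members of `C`: every algebraic class `f` on `U` extends to some `(W, L)` in `C` of
which `U` is a fibre over a curve, and `L` restricts to (a multiple of) `M`. -/
def VeryGeneralFibre (C : ∀ W : V, G.Bund W → Prop) {U : V} (M : G.Bund U) : Prop :=
  ∀ j : ℕ, ∀ f ∈ D.alg U j, ∃ (W : V) (L : G.Bund W) (i : U ⟶ W), C W L ∧ G.Fibre L i ∧
    (∃ r : ℚ, r ≠ 0 ∧ D.pb i (G.c L) = (r : K) • G.c M) ∧ ∃ e ∈ D.alg W j, D.pb i e = f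

/-- **All varieties are generated by those with the property `P`.**  There are classes
`C 0, C 1, C 2, …` of polarized varieties such that the members of `C 0` have the property `P`,
the squares of the members of `C (r + 1)` are very general fibres of members of `C r`, and every
variety is the image of a member of some `C r` under a generically finite morphism.

(`k` an algebraically closed field, `P`: defined over an algebraically closed subfield `k₀`.
In characteristic zero, `C r` consists of the varieties defined over a field of transcendence
degree at most `r` over `k₀`; in general, of the log smooth ones among them, by the theorems of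
de Jong, Gabber and Illusie-Temkin.) -/
def GeneratedBy (P : V → Prop) : Prop :=
  ∃ C : ℕ → ∀ X : V, G.Bund X → Prop, (∀ (X : V) (M : G.Bund X), C 0 X M → P X) ∧
    (∀ (r : ℕ) (X : V) (M : G.Bund X), C (r + 1) X M → G.VeryGeneralFibre (C r) (G.box M M)) ∧
    ∀ X : V, ∃ (r : ℕ) (X' : V) (M' : G.Bund X') (π : X' ⟶ X), C r X' M' ∧
      D.GenericallyFinite π

/-- `P` is stable under products and (some smooth) hypersurface sections. -/
structure Closed (P : V → Prop) : Prop where
  prod : ∀ X Y : V, P X → P Y → P (X ⊗ Y)
  hypersurface : ∀ (X : V) (M : G.Bund X), P X → 2 ≤ D.dim X →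
    ∃ (Y : V) (i : Y ⟶ X), P Y ∧ G.Hypersurface M i

end Polarization

end Pool.Std
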