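import Pool.Agent.Work.StdConj01.Main

/-!
The Lefschetz standard conjecture on a class of varieties from the surjectivity of
`L^2 : C^(m-1)(U) → C^(m+1)(U)` for the `U` of dimension `2 m` of the class.
-/

open CategoryTheory MonoidalCategory CartesianMonoidalCategory

universe u v w x b

namespace Pool.Std

open Pool.KC Pool.SL

variable {V : Type u} [Category.{v} V] [CartesianMonoidalCategory V] {K : Type x} [Field K]
variable {T : WeilTheory.{u, v, w, x} V K}

/-- `c^2 ζ` algebraic implies `ζ` algebraic, for `ζ` in degree `dim X - 2`, `dim X` even -/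
def Mid (R : Cyc T) {X : V} (c : T.H X) : Prop :=
  ∀ m, 1 ≤ m → T.dim X = 2 * m → ∀ ζ ∈ T.deg X (2 * (m - 1)), c * (c * ζ) ∈ R.A X (m + 1) →
    ζ ∈ R.A X (m - 1)

variable [CharZero K] {R : Cyc T} {G : Pl.{u, v, w, x, b} R}

/-- the class of an operator of weight `-2`, from `L (L κ + κ L) + (L κ + κ L) L` -/
theorem lift_op_mid2 {U X : V} (N : G.Bund U) (M : G.Bund X) {m : ℕ} (hm : 1 ≤ m)
    (hd : T.dim U + T.dim X = 2 * m) (hreg : Mid R (G.c (G.box N M)))
    {f κ : T.H U →ₗ[K] T.H X} (hf : f ∈ R.Op U X (m + 1))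
    (h0 : ∀ i, i + 2 * (m - 1) < 2 * T.dim U → ∀ a ∈ T.deg U i, κ a = 0)
    (h1 : ∀ i l, i + 2 * (m - 1) = 2 * T.dim U + l → ∀ a ∈ T.deg U i, κ a ∈ T.deg X l)
    (hrel : ∀ a, G.c M * (G.c M * κ a + κ (G.c N * a)) +
      (G.c M * κ (G.c N * a) + κ (G.c N * (G.c N * a))) = f a) : κ ∈ R.Op U X (m - 1) := by
  obtain ⟨ζ, hζ, hζa⟩ := class_deg (k := 2 * (m - 1)) h0 h1
  obtain ⟨z, hz, hza⟩ := hf
  have hdW : T.dim (U ⊗ X) = 2 * m := by rw [T.dim_prod, hd]
  have key : ∀ (ζ : T.H (U ⊗ X)) (a : T.H U), T.act (G.c (G.box N M) * ζ) a =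
      G.c M * T.act ζ a + T.act ζ (G.c N * a) := by
    intro ζ a
    rw [G.c_box, add_mul, T.act_add, LinearMap.add_apply, T.act_fst_mul,
      T.act_snd_mul (G.c_deg M), ← G.c_comm, add_comm]
  have h2 : G.c (G.box N M) * (G.c (G.box N M) * ζ) = z := by
    apply T.act_injective
    apply LinearMap.ext
    intro a
    rw [key, key, key, hza, ← hrel a, hζa]
  refine ⟨ζ, hreg m hm hdW ζ hζ ?_, hζa⟩
  rw [h2]
  exact hz

theorem lift_op_mid {U X : V} (N : G.Bund U) (M : G.Bund X) {m : ℕ} (hm : 1 ≤ m)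
    (hd : T.dim U + T.dim X = 2 * m) (hreg : Mid R (G.c (G.box N M)))
    {f κ : T.H U →ₗ[K] T.H X} (hf : f ∈ R.Op U X m)
    (h0 : ∀ i, i + 2 * (m - 1) < 2 * T.dim U → ∀ a ∈ T.deg U i, κ a = 0)
    (h1 : ∀ i l, i + 2 * (m - 1) = 2 * T.dim U + l → ∀ a ∈ T.deg U i, κ a ∈ T.deg X l)
    (hrel : ∀ a, G.c M * κ a + κ (G.c N * a) = f a) : κ ∈ R.Op U X (m - 1) := by
  have hM := Cyc.Op_mul (R := R) (G.c_mem M)
  have hN := Cyc.Op_mul (R := R) (G.c_mem N)
  refine lift_op_mid2 N M hm hd hreg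
    (f := LinearMap.mulLeft K (G.c M) ∘ₗ f + f ∘ₗ LinearMap.mulLeft K (G.c N)) ?_ h0 h1 ?_
  · exact add_mem (Cyc.Op_comp hf hM (by omega)) (Cyc.Op_comp hN hf (by omega))
  · intro a
    change _ = G.c M * f a + f (G.c N * a)
    rw [← hrel, ← hrel]

section KappaMid

variable {X : V} {M : G.Bund X} (S₀ : Hyp G M) (S₁ : Hyp G S₀.N)

/-- the operator `c^j p ↦ c^(j-1) p`, except at the top of the strings -/
theorem exists_low_mid (hX : 3 ≤ T.dim X) (hB : G.LefB S₀.N)
    (hreg : Mid R (G.c (G.box S₁.N M))) :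
    ∃ l ∈ R.Op X X (T.dim X - 1), ∀ (d : ℕ) (p : T.H X), G.Prim M d p → l p = 0 ∧
      ∀ j : ℕ, (d + (j + 1) < T.dim X → l (G.c M ^ (j + 1) * p) = G.c M ^ j * p) ∧
        (d + (j + 1) = T.dim X → l (G.c M ^ (j + 1) * p) = 0) := by
  have hd0 := S₀.dim
  have hd1 := S₁.dim
  obtain ⟨z0, hz0, hl0⟩ := hB
  obtain ⟨lam, hlam, hlamd, -⟩ := exists_lam (G := G) M
  obtain ⟨J0, hJ0, hJ01, hJ02⟩ := S₀.exists_J
  obtain ⟨J1, hJ1, hJ11, hJ12⟩ := S₁.exists_J
  set L0 := T.act z0 with hL0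
  have hL0op : L0 ∈ R.Op S₀.Y S₀.Y (T.dim S₀.Y - 1) := Cyc.act_mem_Op hz0
  set κ : T.H S₁.Y →ₗ[K] T.H X := lam ∘ₗ J0 ∘ₗ L0 ∘ₗ J1 with hκ
  have hκa : ∀ a, κ a = lam (J0 (L0 (J1 a))) := fun _ => rfl
  set f : T.H S₁.Y →ₗ[K] T.H X :=
    J0 ∘ₗ L0 ∘ₗ J1 + J0 ∘ₗ L0 ∘ₗ L0 ∘ₗ LinearMap.mulLeft K (G.c S₀.N) ∘ₗ J1 with hf
  have hfa : ∀ a, f a = J0 (L0 (J1 a)) + J0 (L0 (L0 (G.c S₀.N * J1 a))) := fun _ => rfl
  have hfop : f ∈ R.Op S₁.Y X (T.dim X - 1) := by
    have hm := Cyc.Op_mul (R := R) (G.c_mem S₀.N)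
    apply add_mem
    · have e1 := Cyc.Op_comp hJ1 hL0op (t := T.dim S₀.Y - 1) (by omega)
      exact Cyc.Op_comp e1 hJ0 (by omega)
    · have e1 := Cyc.Op_comp hJ1 hm (t := T.dim S₀.Y + 1) (by omega)
      have e2 := Cyc.Op_comp e1 hL0op (t := T.dim S₀.Y) (by omega)
      have e3 := Cyc.Op_comp e2 hL0op (t := T.dim S₀.Y - 1) (by omega)
      exact Cyc.Op_comp e3 hJ0 (by omega)
  -- the relation on multiples of `c` in `H(Y₀)`
  have key : ∀ x : T.H S₀.Y, G.c M * lam (J0 (L0 (G.c S₀.N * x))) +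
      lam (J0 (L0 (G.c S₀.N * (G.c S₀.N * x)))) =
      J0 (L0 (G.c S₀.N * x)) + J0 (L0 (L0 (G.c S₀.N * (G.c S₀.N * x)))) := by
    intro x
    refine Pl.prim_ind S₀.N (P := fun x => G.c M * lam (J0 (L0 (G.c S₀.N * x))) +
      lam (J0 (L0 (G.c S₀.N * (G.c S₀.N * x)))) =
      J0 (L0 (G.c S₀.N * x)) + J0 (L0 (L0 (G.c S₀.N * (G.c S₀.N * x))))) (by simp) ?_ ?_ x
    · intro d q hq j hj
      rw [← mul_assoc (G.c S₀.N) (G.c S₀.N ^ j) q, ← pow_succ', ← mul_assoc, ← pow_succ']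
      rcases Nat.lt_or_ge (T.dim S₀.Y) (d + (j + 1)) with h1 | h1
      · have e1 : G.c S₀.N ^ (j + 1) * q = 0 := hq.pow_eq_zero h1
        have e2 : G.c S₀.N ^ (j + 1 + 1) * q = 0 := hq.pow_eq_zero (by omega)
        rw [e1, e2]
        simp
      · obtain ⟨p, hp, rfl⟩ := S₀.exists_prim hq (by omega)
        have e1 := (hl0 d _ hq).2 j h1
        have e3 : ∀ t, J0 (G.c S₀.N ^ t * T.pull S₀.i p) = (S₀.r : K) • (G.c M ^ (t + 1) * p) := by
          intro t
          rw [← S₀.pull_pow, hJ01, ← mul_assoc, ← pow_succ']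
        rw [e1, e3, map_smul, (hlam d p hp).2 j (by omega), mul_smul_comm, ← mul_assoc, ← pow_succ']
        rcases Nat.lt_or_ge (T.dim S₀.Y) (d + (j + 1 + 1)) with h2 | h2
        · have e2 : G.c S₀.N ^ (j + 1 + 1) * T.pull S₀.i p = 0 := hq.pow_eq_zero h2
          rw [e2]
          simp
        · rw [(hl0 d _ hq).2 (j + 1) h2, e3, e1, e3, map_smul, (hlam d p hp).2 (j + 1) (by omega)]
    · intro a e h1 h2
      simp only [mul_add, map_add]
      rw [← sub_eq_zero] at h1 h2 ⊢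
      calc _ = (G.c M * lam (J0 (L0 (G.c S₀.N * a))) + lam (J0 (L0 (G.c S₀.N * (G.c S₀.N * a)))) -
            (J0 (L0 (G.c S₀.N * a)) + J0 (L0 (L0 (G.c S₀.N * (G.c S₀.N * a)))))) +
          (G.c M * lam (J0 (L0 (G.c S₀.N * e))) + lam (J0 (L0 (G.c S₀.N * (G.c S₀.N * e)))) -
            (J0 (L0 (G.c S₀.N * e)) + J0 (L0 (L0 (G.c S₀.N * (G.c S₀.N * e)))))) := by abel
        _ = 0 := by rw [h1, h2, add_zero]
  have hrel : ∀ a, G.c M * κ a + κ (G.c S₁.N * a) = f a := by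
    intro a
    obtain ⟨x, hx⟩ := S₁.exists_mul hJ1 hJ11 a
    rw [hκa, hκa, hfa, hJ12, hx]
    exact key x
  have hκop : κ ∈ R.Op S₁.Y X (T.dim X - 1 - 1) := by
    refine lift_op_mid S₁.N M (m := T.dim X - 1) (by omega) (by omega) hreg hfop ?_ ?_ hrel
    · intro i hi
      omega
    · intro i l hil a ha
      have e1 : J1 a ∈ T.deg S₀.Y (i + 2) := Cyc.Op_deg hJ1 (by omega) ha
      have e2 : L0 (J1 a) ∈ T.deg S₀.Y i := Cyc.Op_deg hL0op (by omega) e1
      have e3 : J0 (L0 (J1 a)) ∈ T.deg X (i + 2) := Cyc.Op_deg hJ0 (by omega) e2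
      exact T.deg_of_eq (hlamd i _ e3) (by omega)
  -- the operator
  have hop : κ ∘ₗ (T.pull S₁.i).toLinearMap ∘ₗ L0 ∘ₗ (T.pull S₀.i).toLinearMap ∈
      R.Op X X (T.dim X - 1) := by
    have e1 := Cyc.Op_comp (Cyc.Op_pull (R := R) S₀.i) hL0op (t := T.dim X - 1) (by omega)
    have e2 := Cyc.Op_comp e1 (Cyc.Op_pull (R := R) S₁.i) (t := T.dim X - 1) (by omega)
    exact Cyc.Op_comp e2 hκop (by omega)
  refine ⟨_, Cyc.Op_smul (S₀.r * S₁.r)⁻¹ hop, ?_⟩
  intro d p hp
  have hval : ∀ a, ((((S₀.r * S₁.r)⁻¹ : ℚ) : K) • (κ ∘ₗ (T.pull S₁.i).toLinearMap ∘ₗ L0 ∘ₗ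
      (T.pull S₀.i).toLinearMap)) a =
      (((S₀.r * S₁.r)⁻¹ : ℚ) : K) • κ (T.pull S₁.i (L0 (T.pull S₀.i a))) := fun _ => rfl
  rcases S₀.prim_or hp with ⟨hd, hq⟩ | ⟨hd, hq⟩
  · constructor
    · rw [hval, (hl0 d _ hq).1, map_zero, map_zero, smul_zero]
    · intro j
      constructor
      · intro hj
        rw [hval, S₀.pull_pow, (hl0 d _ hq).2 j (by omega), hκa, hJ11, map_smul, ← mul_assoc,
          ← pow_succ', (hl0 d _ hq).2 j (by omega), map_smul, ← S₀.pull_pow, hJ01, ← mul_assoc,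
          ← pow_succ', map_smul, map_smul, (hlam d p hp).2 j (by omega), smul_smul, smul_smul]
        rw [show ((((S₀.r * S₁.r)⁻¹ : ℚ) : K) * (S₁.r : K) * (S₀.r : K) : K) = 1 by
          rw [Rat.cast_inv, Rat.cast_mul, mul_assoc, mul_comm (S₁.r : K),
            inv_mul_cancel₀ (mul_ne_zero S₀.r_ne S₁.r_ne)], one_smul]
      · intro hj
        rw [hval, S₀.pull_pow, hq.pow_eq_zero (by omega), map_zero, map_zero, map_zero, smul_zero]
  · constructor
    · rw [hval, hq, map_zero, map_zero, map_zero, smul_zero]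
    · intro j
      refine ⟨fun hj => by omega, fun hj => by omega⟩

/-- the operator `c^j p ↦ c^(j-1) p` for `2 ≤ j` -/
theorem exists_up_mid (hX : 3 ≤ T.dim X) (hB : G.LefB S₀.N)
    (hreg : Mid R (G.c (G.box M S₁.N))) :
    ∃ l ∈ R.Op X X (T.dim X - 1), ∀ (d : ℕ) (p : T.H X), G.Prim M d p → l p = 0 ∧
      l (G.c M * p) = 0 ∧ ∀ j : ℕ, d + (j + 2) ≤ T.dim X →
        l (G.c M ^ (j + 2) * p) = G.c M ^ (j + 1) * p := by
  have hd0 := S₀.dim
  have hd1 := S₁.dim
  obtain ⟨z0, hz0, hl0⟩ := hB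
  obtain ⟨lam, hlam, hlamd, hlam2⟩ := exists_lam (G := G) M
  obtain ⟨J0, hJ0, hJ01, hJ02⟩ := S₀.exists_J
  obtain ⟨J1, hJ1, hJ11, hJ12⟩ := S₁.exists_J
  set L0 := T.act z0 with hL0
  have hL0op : L0 ∈ R.Op S₀.Y S₀.Y (T.dim S₀.Y - 1) := Cyc.act_mem_Op hz0
  set κ : T.H X →ₗ[K] T.H S₁.Y :=
    (T.pull S₁.i).toLinearMap ∘ₗ (T.pull S₀.i).toLinearMap ∘ₗ lam ∘ₗ lam with hκ
  have hκa : ∀ a, κ a = T.pull S₁.i (T.pull S₀.i (lam (lam a))) := fun _ => rfl
  set f : T.H X →ₗ[K] T.H S₁.Y :=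
    (T.pull S₁.i).toLinearMap ∘ₗ L0 ∘ₗ (T.pull S₀.i).toLinearMap +
    (T.pull S₁.i).toLinearMap ∘ₗ LinearMap.mulLeft K (G.c S₀.N) ∘ₗ L0 ∘ₗ L0 ∘ₗ
      (T.pull S₀.i).toLinearMap with hf
  have hfa : ∀ a, f a = T.pull S₁.i (L0 (T.pull S₀.i a)) +
      T.pull S₁.i (G.c S₀.N * L0 (L0 (T.pull S₀.i a))) := fun _ => rfl
  have hfop : f ∈ R.Op X S₁.Y (T.dim X - 1) := by
    have hm := Cyc.Op_mul (R := R) (G.c_mem S₀.N)
    have e1 := Cyc.Op_comp (Cyc.Op_pull (R := R) S₀.i) hL0op (t := T.dim X - 1) (by omega)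
    apply add_mem
    · exact Cyc.Op_comp e1 (Cyc.Op_pull (R := R) S₁.i) (by omega)
    · have e2 := Cyc.Op_comp e1 hL0op (t := T.dim X - 2) (by omega)
      have e3 := Cyc.Op_comp e2 hm (t := T.dim X - 1) (by omega)
      exact Cyc.Op_comp e3 (Cyc.Op_pull (R := R) S₁.i) (by omega)
  -- values of `κ` on strings
  have hκ0 : ∀ (d : ℕ) (p : T.H X), G.Prim M d p → κ p = 0 := by
    intro d p hp
    rw [hκa, (hlam d p hp).1]
    simp
  have hκ1 : ∀ (d : ℕ) (p : T.H X), G.Prim M d p → κ (G.c M * p) = 0 := by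
    intro d p hp
    rcases Nat.lt_or_ge (T.dim X) (d + 1) with h1 | h1
    · have e1 := hp.pow_eq_zero h1
      rw [pow_one] at e1
      rw [e1, map_zero]
    · have e1 := (hlam d p hp).2 0 (by omega)
      rw [zero_add, pow_one, pow_zero, one_mul] at e1
      rw [hκa, e1, (hlam d p hp).1]
      simp
  have hκ2 : ∀ (d : ℕ) (p : T.H X), G.Prim M d p → ∀ j, d + (j + 2) ≤ T.dim X →
      κ (G.c M ^ (j + 2) * p) = T.pull S₁.i (G.c S₀.N ^ j * T.pull S₀.i p) := by
    intro d p hp j hj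
    rw [hκa, (hlam d p hp).2 (j + 1) (by omega), (hlam d p hp).2 j (by omega), S₀.pull_pow]
  have hrel : ∀ a, G.c S₁.N * κ a + κ (G.c M * a) = f a := by
    intro a
    refine Pl.prim_ind M (P := fun a => G.c S₁.N * κ a + κ (G.c M * a) = f a) (by simp) ?_ ?_ a
    · intro d p hp j hj
      have hpow : G.c M * (G.c M ^ j * p) = G.c M ^ (j + 1) * p := by
        rw [← mul_assoc, ← pow_succ']
      rw [hpow]
      rcases S₀.prim_or hp with ⟨hd, hq⟩ | ⟨hd, hq⟩
      · rcases j with _ | j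
        · -- `j = 0`
          rw [pow_zero, one_mul, zero_add, pow_one, hκ0 d p hp, hκ1 d p hp, hfa,
            (hl0 d _ hq).1]
          simp
        · -- `j ≥ 1`
          rcases Nat.lt_or_ge (d + (j + 1)) (T.dim X) with h1 | h1
          · -- below the top
            have e1 := (hl0 d _ hq).2 j (by omega)
            rw [hfa, S₀.pull_pow, e1, hκ2 d p hp j (by omega)]
            rcases j with _ | j
            · rw [zero_add, pow_one, pow_zero, one_mul, hκ1 d p hp, (hl0 d _ hq).1]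
              simp
            · rw [hκ2 d p hp j (by omega), (hl0 d _ hq).2 j (by omega), S₁.hN, ← map_mul,
                add_comm]
          · -- the top
            have h2 : d + (j + 1) = T.dim X := by omega
            have e1 : G.c S₀.N ^ (j + 1) * T.pull S₀.i p = 0 := hq.pow_eq_zero (by omega)
            have e2 : G.c M ^ (j + 1 + 1) * p = 0 := hp.pow_eq_zero (by omega)
            rw [hfa, S₀.pull_pow, e1, e2]
            simp only [map_zero, mul_zero, add_zero]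
            rcases j with _ | j
            · rw [zero_add, pow_one, hκ1 d p hp, mul_zero]
            · rw [hκ2 d p hp j (by omega), S₁.hN, ← map_mul, ← mul_assoc, ← pow_succ']
              apply S₁.pull_zero (T.mul_deg (G.c_pow_deg S₀.N _) hq.2.1)
              rw [← mul_assoc, ← pow_succ', e1]
      · -- the middle degree
        have hj0 : j = 0 := by omega
        subst hj0
        rw [pow_zero, one_mul, zero_add, pow_one, hκ0 d p hp, hκ1 d p hp, hfa, hq]
        simp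
    · intro a e h1 h2
      rw [mul_add, map_add, map_add, map_add, mul_add, ← h1, ← h2]
      abel
  have hκop : κ ∈ R.Op X S₁.Y (T.dim X - 1 - 1) := by
    refine lift_op_mid M S₁.N (m := T.dim X - 1) (by omega) (by omega) hreg hfop ?_ ?_ hrel
    · intro i hi a ha
      rw [hκa]
      rcases Nat.lt_or_ge i 2 with h1 | h1
      · rw [hlam2 i h1 a ha]
        simp
      · have e1 : lam a ∈ T.deg X (i - 2) := hlamd (i - 2) a (T.deg_of_eq ha (by omega))
        rw [hlam2 (i - 2) (by omega) _ e1]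
        simp
    · intro i l hil a ha
      have e1 : lam a ∈ T.deg X (l + 2) := hlamd (l + 2) a (T.deg_of_eq ha (by omega))
      exact T.pull_deg _ (T.pull_deg _ (hlamd l _ e1))
  have hop : J0 ∘ₗ L0 ∘ₗ J1 ∘ₗ κ ∈ R.Op X X (T.dim X - 1) := by
    have e1 := Cyc.Op_comp hκop hJ1 (t := T.dim X - 1) (by omega)
    have e2 := Cyc.Op_comp e1 hL0op (t := T.dim X - 2) (by omega)
    exact Cyc.Op_comp e2 hJ0 (by omega)
  refine ⟨_, Cyc.Op_smul (S₀.r * S₁.r)⁻¹ hop, ?_⟩
  intro d p hp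
  have hval : ∀ a, ((((S₀.r * S₁.r)⁻¹ : ℚ) : K) • (J0 ∘ₗ L0 ∘ₗ J1 ∘ₗ κ)) a =
      (((S₀.r * S₁.r)⁻¹ : ℚ) : K) • J0 (L0 (J1 (κ a))) := fun _ => rfl
  refine ⟨by rw [hval, hκ0 d p hp]; simp, by rw [hval, hκ1 d p hp]; simp, ?_⟩
  intro j hj
  have hq := S₀.prim_pull hp (by omega)
  rw [hval, hκ2 d p hp j hj, hJ11, map_smul, ← mul_assoc, ← pow_succ',
    (hl0 d _ hq).2 j (by omega), map_smul, ← S₀.pull_pow, hJ01, ← mul_assoc, ← pow_succ',
    smul_smul, smul_smul]
  rw [show ((((S₀.r * S₁.r)⁻¹ : ℚ) : K) * (S₁.r : K) * (S₀.r : K) : K) = 1 by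
    rw [Rat.cast_inv, Rat.cast_mul, mul_assoc, mul_comm (S₁.r : K),
      inv_mul_cancel₀ (mul_ne_zero S₀.r_ne S₁.r_ne)], one_smul]

theorem highLam_of_sections_mid (hX : 3 ≤ T.dim X) (hB : G.LefB S₀.N)
    (hreg : Mid R (G.c (G.box S₁.N M))) (hreg' : Mid R (G.c (G.box M S₁.N))) :
    HighLam M := by
  obtain ⟨l, hl, h1⟩ := exists_low_mid S₀ S₁ hX hB hreg
  obtain ⟨l', hl', h2⟩ := exists_up_mid S₀ S₁ hX hB hreg'
  have hm := Cyc.Op_mul (R := R) (G.c_mem M)
  have hop : l + l' - l ∘ₗ LinearMap.mulLeft K (G.c M) ∘ₗ l' ∈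
      R.Op X X (T.dim X - 1) := by
    apply sub_mem (add_mem hl hl')
    have e1 := Cyc.Op_comp hl' hm (t := T.dim X) (by omega)
    exact Cyc.Op_comp e1 hl (by omega)
  refine ⟨_, hop, ?_⟩
  have hval : ∀ a, (l + l' - l ∘ₗ LinearMap.mulLeft K (G.c M) ∘ₗ l') a =
      l a + l' a - l (G.c M * l' a) := fun _ => rfl
  intro d p hp
  constructor
  · rw [hval, (h1 d p hp).1, (h2 d p hp).1, mul_zero, map_zero]
    simp
  · intro j hj
    constructor
    · intro hd
      rcases j with _ | j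
      · have e1 := ((h1 d p hp).2 0).1 (by omega)
        rw [hval, e1, zero_add, pow_one, (h2 d p hp).2.1, mul_zero, map_zero]
        simp
      · have e2 := (h2 d p hp).2.2 j (by omega)
        rw [hval, e2, ← mul_assoc, ← pow_succ']
        rcases Nat.lt_or_ge (d + (j + 1 + 1)) (T.dim X) with h3 | h3
        · rw [((h1 d p hp).2 (j + 1)).1 h3]
          simp
        · rw [((h1 d p hp).2 (j + 1)).2 (by omega)]
          simp
    · intro hd
      have hj0 : j = 0 := by omega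
      subst hj0
      have e1 := ((h1 d p hp).2 0).2 (by omega)
      rw [hval, e1, zero_add, pow_one, (h2 d p hp).2.1, mul_zero, map_zero]
      simp

end KappaMid

/-- from the strings of length at least two to all strings -/
theorem lefB_of_high_mid {X : V} {M : G.Bund X} (hX : 1 ≤ T.dim X) (hl : HighLam M)
    (hreg : Mid R (G.c (G.box M M))) : G.LefB M := by
  obtain ⟨l, hlop, hl⟩ := hl
  obtain ⟨lam, hlam, hlamd, hlam2⟩ := exists_lam (G := G) M
  have hm := Cyc.Op_mul (R := R) (G.c_mem M)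
  have hid := Cyc.Op_id (R := R) X
  set e : T.H X →ₗ[K] T.H X := (LinearMap.id - LinearMap.mulLeft K (G.c M) ∘ₗ l) ∘ₗ
    (LinearMap.id - l ∘ₗ LinearMap.mulLeft K (G.c M)) with he
  have heop : e ∈ R.Op X X (T.dim X) := by
    have e1 : l ∘ₗ LinearMap.mulLeft K (G.c M) ∈ R.Op X X (T.dim X) :=
      Cyc.Op_comp hm hlop (by omega)
    have e2 : LinearMap.mulLeft K (G.c M) ∘ₗ l ∈ R.Op X X (T.dim X) :=
      Cyc.Op_comp hlop hm (by omega)
    exact Cyc.Op_comp (sub_mem hid e1) (sub_mem hid e2) (by omega)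
  have hea : ∀ a, e a = (a - l (G.c M * a)) - G.c M * l (a - l (G.c M * a)) := fun _ => rfl
  -- values of `e`
  have hpow : ∀ (j : ℕ) (p : T.H X), G.c M * (G.c M ^ j * p) = G.c M ^ (j + 1) * p := by
    intro j p
    rw [← mul_assoc, ← pow_succ']
  have hhigh : ∀ (d : ℕ) (p : T.H X), G.Prim M d p → d + 2 ≤ T.dim X → ∀ j,
      e (G.c M ^ j * p) = 0 := by
    intro d p hp hd j
    rcases Nat.lt_or_ge (T.dim X) (d + j) with h4 | h4
    · rw [hp.pow_eq_zero h4, map_zero]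
    rw [hea, hpow]
    rcases Nat.lt_or_ge (d + j) (T.dim X) with h5 | h5
    · rw [((hl d p hp).2 j (by omega)).1 hd, sub_self, map_zero, mul_zero, sub_zero]
    · rw [hp.pow_eq_zero (show T.dim X < d + (j + 1) by omega), map_zero, sub_zero]
      obtain ⟨j, rfl⟩ : ∃ j', j = j' + 1 := ⟨j - 1, by omega⟩
      rw [((hl d p hp).2 j (by omega)).1 hd, hpow, sub_self]
  have hlow : ∀ (d : ℕ) (p : T.H X), G.Prim M d p → T.dim X < d + 2 → ∀ j,
      e (G.c M ^ j * p) = G.c M ^ j * p := by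
    intro d p hp hd j
    have h0 : ∀ j, l (G.c M ^ j * p) = 0 := by
      intro j
      rcases j with _ | j
      · rw [pow_zero, one_mul, (hl d p hp).1]
      · rcases Nat.lt_or_ge (T.dim X) (d + (j + 1)) with h4 | h4
        · rw [hp.pow_eq_zero h4, map_zero]
        · exact ((hl d p hp).2 j h4).2 hd
    rw [hea, hpow, h0, sub_zero, h0, mul_zero, sub_zero]
  set ξ : T.H X →ₗ[K] T.H X := lam ∘ₗ e with hξ
  have hξa : ∀ a, ξ a = lam (e a) := fun _ => rfl
  set F : T.H X →ₗ[K] T.H X := ((2 : ℚ) : K) • (LinearMap.mulLeft K (G.c M) ∘ₗ e) with hF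
  have hFa : ∀ a, F a = (2 : K) • (G.c M * e a) := by
    intro a
    rw [hF]
    push_cast
    rfl
  have hrel : ∀ a, G.c M * (G.c M * ξ a + ξ (G.c M * a)) +
      (G.c M * ξ (G.c M * a) + ξ (G.c M * (G.c M * a))) = F a := by
    intro a
    refine Pl.prim_ind M (P := fun a => G.c M * (G.c M * ξ a + ξ (G.c M * a)) +
      (G.c M * ξ (G.c M * a) + ξ (G.c M * (G.c M * a))) = F a)
      (by simp) ?_ ?_ a
    · intro d p hp j hj
      have hcomp := hFa (G.c M ^ j * p)
      rw [hcomp, hpow, hpow, hξa, hξa, hξa]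
      rcases Nat.lt_or_ge (T.dim X) (d + 2) with h4 | h4
      · rw [hlow d p hp h4, hlow d p hp h4, hlow d p hp h4, hpow,
          hp.pow_eq_zero (show T.dim X < d + (j + 1 + 1) by omega), map_zero, add_zero]
        rcases j with _ | j
        · rw [pow_zero, one_mul, (hlam d p hp).1, mul_zero, zero_add, zero_add]
          rcases Nat.lt_or_ge d (T.dim X) with h5 | h5
          · have e1 := (hlam d p hp).2 0 (by omega)
            rw [e1, pow_zero, one_mul, pow_one, two_smul]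
          · rw [hp.pow_eq_zero (show T.dim X < d + (0 + 1) by omega), map_zero, mul_zero,
              smul_zero, add_zero]
        · have h7 : G.c M ^ (j + 1 + 1) * p = 0 := hp.pow_eq_zero (by omega)
          rw [h7, map_zero, mul_zero, smul_zero, add_zero, add_zero]
          rcases Nat.lt_or_ge (T.dim X) (d + (j + 1)) with h8 | h8
          · rw [hp.pow_eq_zero h8, map_zero, mul_zero, mul_zero]
          · rw [(hlam d p hp).2 j h8, hpow, hpow, h7]
      · rw [hhigh d p hp h4, hhigh d p hp h4, hhigh d p hp h4, map_zero, mul_zero, smul_zero,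
          add_zero, mul_zero, add_zero]
    · intro a a' h4 h5
      rw [F.map_add, ← h4, ← h5]
      simp only [mul_add, map_add]
      abel
  have hξop : ξ ∈ R.Op X X (T.dim X - 1) := by
    refine lift_op_mid2 M M (m := T.dim X) hX (by omega) hreg
      (f := F)
      (Cyc.Op_smul 2 (Cyc.Op_comp heop hm (by omega))) ?_ ?_ hrel
    · intro i hi a ha
      have e1 : e a ∈ T.deg X i := Cyc.Op_deg heop (by omega) ha
      rw [hξa, hlam2 i (by omega) _ e1]
    · intro i k hik a ha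
      have e1 : e a ∈ T.deg X i := Cyc.Op_deg heop (by omega) ha
      exact hlamd k _ (T.deg_of_eq e1 (by omega))
  obtain ⟨y, hy, hya⟩ := add_mem hlop hξop
  have hval : ∀ a, T.act y a = l a + lam (e a) := fun a => by rw [hya]; rfl
  refine ⟨y, hy, ?_⟩
  intro d p hp
  rcases Nat.lt_or_ge (T.dim X) (d + 2) with h4 | h4
  · constructor
    · have e1 := hlow d p hp h4 0
      rw [pow_zero, one_mul] at e1
      rw [hval, e1, (hl d p hp).1, (hlam d p hp).1, add_zero]
    · intro j hj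
      rw [hval, hlow d p hp h4, ((hl d p hp).2 j hj).2 h4, (hlam d p hp).2 j hj, zero_add]
  · constructor
    · have e1 := hhigh d p hp h4 0
      rw [pow_zero, one_mul] at e1
      rw [hval, e1, (hl d p hp).1, map_zero, add_zero]
    · intro j hj
      rw [hval, hhigh d p hp h4, ((hl d p hp).2 j hj).1 h4, map_zero, add_zero]

/-- **`B` on a class of varieties** closed under products and hypersurface sections, from the
property `Mid` of its products of even dimension. -/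
theorem lefB_of_mid (hR : R.Div) (hc : Conn T) (P : V → Prop)
    (hhyp : ∀ (X : V) (M : G.Bund X), P X → 2 ≤ T.dim X → ∃ S : Hyp G M, P S.Y)
    (hmid : ∀ (A B : V) (N : G.Bund A) (M : G.Bund B), P A → P B →
      Mid R (G.c (G.box N M))) :
    ∀ (X : V) (M : G.Bund X), P X → G.LefB M := by
  suffices h : ∀ (k : ℕ) (X : V) (M : G.Bund X), P X → T.dim X = k → G.LefB M from
    fun X M hX => h _ X M hX rfl
  intro k
  induction k using Nat.strong_induction_on with
  | _ k ih =>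
    intro X M hXP hX
    rcases Nat.eq_zero_or_pos k with h1 | h1
    · exact lefB_point M (by omega)
    · refine lefB_of_high_mid (by omega) ?_ (hmid X X M M hXP hXP)
      rcases Nat.lt_or_ge k 3 with h3 | h3
      · rcases Nat.lt_or_ge k 2 with h2 | h2
        · exact highLam_curve (by omega)
        · exact highLam_surface hR (by omega) (hc X).2
      · obtain ⟨S₀, hS₀⟩ := hhyp X M hXP (by omega)
        have hd0 := S₀.dim
        obtain ⟨S₁, hS₁⟩ := hhyp S₀.Y S₀.N hS₀ (by omega)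
        have hd1 := S₁.dim
        exact highLam_of_sections_mid S₀ S₁ (by omega)
          (ih (k - 1) (by omega) _ S₀.N hS₀ (by omega))
          (hmid _ _ S₁.N M hS₁ hXP) (hmid _ _ M S₁.N hXP hS₁)

omit [CharZero K] in
/-- `Mid` from the equality of the dimensions of the spaces of algebraic classes -/
theorem mid_of_finrank (hK : ∀ (X : V) (i : ℕ) (s : K), ∀ a ∈ R.A X i, s • a ∈ R.A X i)
    {X : V} (M : G.Bund X)
    (h : ∀ m, 1 ≤ m → T.dim X = 2 * m →
      Module.finrank K (Submodule.span K (R.A X (m - 1) : Set (T.H X))) =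
        Module.finrank K (Submodule.span K (R.A X (m + 1) : Set (T.H X)))) :
    Mid R (G.c M) := by
  intro m hm hX ζ hζ hc
  have hspan : ∀ (i : ℕ) (a : T.H X),
      a ∈ Submodule.span K (R.A X i : Set (T.H X)) → a ∈ R.A X i := by
    intro i a ha
    induction ha using Submodule.span_induction with
    | mem x hx => exact hx
    | zero => exact zero_mem _
    | add x y _ _ hx hy => exact add_mem hx hy
    | smul s x _ hx => exact hK X i s x hx
  set S1 := Submodule.span K (R.A X (m - 1) : Set (T.H X)) with hS1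
  set S2 := Submodule.span K (R.A X (m + 1) : Set (T.H X)) with hS2
  set f : T.H X →ₗ[K] T.H X :=
    LinearMap.mulLeft K (G.c M) ∘ₗ LinearMap.mulLeft K (G.c M) with hf
  have hfa : ∀ a, f a = G.c M * (G.c M * a) := fun _ => rfl
  have hinj : ∀ a ∈ T.deg X (2 * (m - 1)), f a = 0 → a = 0 := by
    intro a ha h0
    apply G.hard_inj M (i := 2 * (m - 1)) (k := 2) (by omega) _ ha
    rw [pow_two, mul_assoc, ← hfa, h0]
  have hle : S1.map f ≤ S2 := by
    rintro _ ⟨a, ha, rfl⟩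
    apply Submodule.subset_span
    have h1 := R.mul (G.c_mem M) (R.mul (G.c_mem M) (hspan _ a ha))
    exact R.of_eq h1 (by omega)
  have hfin : Module.finrank K (S1.map f) = Module.finrank K S2 := by
    rw [← h m hm hX, ← LinearMap.range_domRestrict]
    apply LinearMap.finrank_range_of_inj
    intro a b hab
    have h1 : f a = f b := hab
    apply Subtype.ext
    rw [← sub_eq_zero]
    apply hinj
    · exact sub_mem (R.deg (hspan _ _ a.2)) (R.deg (hspan _ _ b.2))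
    · rw [map_sub, h1, sub_self]
  have heq : S1.map f = S2 := Submodule.eq_of_le_of_finrank_eq hle hfin
  have hmem : f ζ ∈ S2 := Submodule.subset_span hc
  rw [← heq] at hmem
  obtain ⟨ζ', h1, h2⟩ := hmem
  have h3 : ζ' ∈ R.A X (m - 1) := hspan _ _ h1
  have h4 : ζ' - ζ = 0 := by
    apply hinj
    · exact sub_mem (R.deg h3) hζ
    · rw [map_sub, h2, sub_self]
  rw [← sub_eq_zero.mp h4]
  exact h3

/-- the same with the property of the varieties of even dimension of the class -/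
theorem lefB_of_mid_class (hR : R.Div) (hc : Conn T) (P : V → Prop)
    (hprod : ∀ X Y : V, P X → P Y → P (X ⊗ Y))
    (hsec : ∀ (X : V) (M : G.Bund X), P X → 2 ≤ T.dim X → ∃ S : Hyp G M, P S.Y)
    (hmid : ∀ (U : V) (M : G.Bund U) (n : ℕ), 1 ≤ n → P U → T.dim U = 2 * n →
      ∀ z ∈ T.deg U (2 * (n - 1)), G.c M ^ 2 * z ∈ R.A U (n + 1) → z ∈ R.A U (n - 1)) :
    ∀ (X : V) (M : G.Bund X), P X → G.LefB M := by
  refine lefB_of_mid hR hc P hsec ?_
  intro A B N M hA hB n hn hd z hz h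
  refine hmid _ (G.box N M) n hn (hprod A B hA hB) hd z hz ?_
  rw [pow_two, mul_assoc]
  exact h

end Pool.Std
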