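import Pool.Agent.Work.MP_a60482_pf.Local

/-!
The Lefschetz conjecture passes from the total spaces to the very general fibres; the Kuenneth
conjecture descends along generically finite morphisms; ranks.
-/

open CategoryTheory MonoidalCategory CartesianMonoidalCategory

universe u v w x b

namespace Pool.Std

open Pool.KC Pool.SL

variable {V : Type u} [Category.{v} V] [CartesianMonoidalCategory V] {K : Type x} [Field K]
variable {T : WeilTheory.{u, v, w, x} V K} {R : Cyc T} {G : Pl.{u, v, w, x, b} R}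

/-- very general fibres -/
def Spr (G : Pl.{u, v, w, x, b} R) (C : ∀ W : V, G.Bund W → Prop) {U : V} (M : G.Bund U) : Prop :=
  ∀ j : ℕ, ∀ f ∈ R.A U j, ∃ (W : V) (L : G.Bund W) (i : U ⟶ W) (h : T.H W) (r : K), C W L ∧
    Fib G L i h ∧ r ≠ 0 ∧ T.pull i (G.c L) = r • G.c M ∧ ∃ e ∈ R.A W j, T.pull i e = f

/-- `B` for the total spaces gives `A` for the very general fibres -/
theorem lefA_of_spr (hK : R.Full) {C : ∀ W : V, G.Bund W → Prop}
    (hC : ∀ (W : V) (L : G.Bund W), C W L → G.LefB L) {U : V} {M : G.Bund U}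
    (hs : Spr G C M) : G.LefA M := by
  intro j k hjk ξ hξ hk
  obtain ⟨W, L, i, h, r, hW, F, hr, hM, g, hg, hgf⟩ := hs (j + k) _ hk
  have hd := F.dim
  have hA := lefA_of_lefB (hC W L hW)
  obtain ⟨y, hy, hyg⟩ := F.core hr hM hK hjk (fun a ha hka =>
    hA j (k + 1) (by omega) a ha (R.of_eq hka (by omega))) hg
  have h1 := F.pull_eq hyg
  rw [hgf, map_mul, map_pow, hM, smul_pow, smul_mul_assoc, ← mul_smul_comm] at h1
  have h2 : r ^ k • T.pull i y = ξ := by
    rw [← sub_eq_zero]
    apply G.hard_inj M hjk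
    · exact sub_mem (Submodule.smul_mem _ _ (T.pull_deg _ (R.deg hy))) hξ
    · rw [mul_sub, h1, sub_self]
  rw [← h2]
  exact hK _ _ _ _ (R.pull _ hy)

/-- induction along a tower -/
theorem lefB_of_tower [CharZero K] (hK : R.Full) (C : ℕ → ∀ X : V, G.Bund X → Prop)
    (h0 : ∀ (X : V) (M : G.Bund X), C 0 X M → G.LefB M)
    (hs : ∀ (r : ℕ) (X : V) (M : G.Bund X), C (r + 1) X M → Spr G (C r) (G.box M M)) :
    ∀ (r : ℕ) (X : V) (M : G.Bund X), C r X M → G.LefB M := by
  intro r
  induction r with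
  | zero => exact h0
  | succ r ih =>
    intro X M hX
    exact lefB_of_lefA hK M (lefA_of_spr hK ih (hs r X M hX))

/-- the class of the graph of a morphism between varieties of the same dimension acts as
push-forward -/
theorem act_graph0 {X Y : V} (i : Y ⟶ X) {s : ℕ} {y : T.H Y} (hy : y ∈ T.deg Y s) {w : T.H X}
    (hwd : w ∈ T.deg X s) (hw : ∀ a : T.H X, T.tr X (a * w) = T.tr Y (T.pull i a * y)) :
    T.act (T.pull (lift (fst Y X ≫ i) (snd Y X)) (T.diag X)) y = w := by
  have h0 : ∀ p : T.H X, T.tr Y (y * T.pull i p) = T.tr X (w * p) := by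
    intro p
    refine T.hind (P := fun p => T.tr Y (y * T.pull i p) = T.tr X (w * p)) (by simp) ?_ ?_ p
    · intro t p hp
      rw [T.comm hy (T.pull_deg i hp), T.comm hwd hp, T.neg_pow_smul, T.neg_pow_smul, map_smul,
        map_smul, hw]
    · intro p q h1 h2
      rw [map_add, mul_add, map_add, h1, h2, mul_add, map_add]
  have key : ∀ z : T.H (X ⊗ X),
      T.act (T.pull (lift (fst Y X ≫ i) (snd Y X)) z) y = T.act z w := by
    intro z
    refine T.kind (P := fun z => T.act (T.pull (lift (fst Y X ≫ i) (snd Y X)) z) y = T.act z w)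
      (by simp [T.act_zero]) ?_ ?_ z
    · intro p q
      rw [map_mul, T.pull_comp', T.pull_comp', lift_fst, lift_snd, T.pull_comp (fst Y X) i,
        T.act_pure, T.act_pure, h0]
    · intro p q h1 h2
      rw [map_add, T.act_add, T.act_add, LinearMap.add_apply, LinearMap.add_apply, h1, h2]
  rw [key, T.act_diag, LinearMap.id_apply]

/-- the Kuenneth conjecture descends along generically finite morphisms -/
theorem kunneth_descend (hK : R.Full) {X Y : V} (i : Y ⟶ X) (hd : T.dim Y = T.dim X) {d : K}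
    (hd0 : d ≠ 0) (htr : ∀ a, T.tr Y (T.pull i a) = d * T.tr X a) (hC : R.KunnethC Y) :
    R.KunnethC X := by
  intro s
  obtain ⟨z, hz, h1, h2⟩ := hC s
  set J : T.H Y →ₗ[K] T.H X := T.act (T.pull (lift (fst Y X ≫ i) (snd Y X)) (T.diag X)) with hJ
  have hJop : J ∈ R.Op Y X (T.dim X) := Cyc.act_mem_Op (R.pull _ (R.diag X))
  have hJa : ∀ (t : ℕ), ∀ a ∈ T.deg X t, J (T.pull i a) = d • a := by
    intro t a ha
    apply act_graph0 i (T.pull_deg _ ha) (Submodule.smul_mem _ _ ha)
    intro e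
    rw [← map_mul, htr, mul_smul_comm, map_smul, smul_eq_mul]
  have hop : J ∘ₗ T.act z ∘ₗ (T.pull i).toLinearMap ∈ R.Op X X (T.dim X) :=
    Cyc.Op_comp (Cyc.Op_comp (Cyc.Op_pull i) (Cyc.act_mem_Op hz) (t := T.dim X) (by omega))
      hJop (by omega)
  obtain ⟨y, hy, hya⟩ := hop
  have hval : ∀ a, T.act (d⁻¹ • y) a = d⁻¹ • J (T.act z (T.pull i a)) := by
    intro a
    rw [T.act_smul, LinearMap.smul_apply, hya]
    rfl
  refine ⟨d⁻¹ • y, hK _ _ _ _ hy, ?_, ?_⟩
  · intro a ha
    rw [hval, h1 _ (T.pull_deg _ ha), hJa s a ha, smul_smul, inv_mul_cancel₀ hd0, one_smul]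
  · intro t ht a ha
    rw [hval, h2 t ht _ (T.pull_deg _ ha), map_zero, smul_zero]

/-- the algebraic classes as a subspace -/
def Cyc.Full.sub (hK : R.Full) (X : V) (j : ℕ) : Submodule K (T.H X) where
  carrier := R.A X j
  add_mem' := fun ha he => add_mem ha he
  zero_mem' := zero_mem _
  smul_mem' := fun q a ha => hK X j q a ha

theorem Cyc.Full.mem_sub (hK : R.Full) {X : V} {j : ℕ} {a : T.H X} :
    a ∈ hK.sub X j ↔ a ∈ R.A X j := Iff.rfl

/-- the Lefschetz conjecture next to the middle, in terms of dimensions -/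
theorem mid_iff_finrank (hK : R.Full) {U : V} (M : G.Bund U) {n : ℕ} (hn : 1 ≤ n)
    (hU : T.dim U = 2 * n) :
    (∀ ξ ∈ T.deg U (2 * (n - 1)), G.c M ^ 2 * ξ ∈ R.A U (n + 1) → ξ ∈ R.A U (n - 1)) ↔
      Module.finrank K (hK.sub U (n - 1)) = Module.finrank K (hK.sub U (n + 1)) := by
  have hmap : ∀ a ∈ hK.sub U (n - 1), LinearMap.mulLeft K (G.c M ^ 2) a ∈ hK.sub U (n + 1) := by
    intro a ha
    exact R.of_eq (R.mul (G.c_pow_mem M 2) ha) (by omega)
  let f : hK.sub U (n - 1) →ₗ[K] hK.sub U (n + 1) :=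
    (LinearMap.mulLeft K (G.c M ^ 2)).restrict hmap
  have hf : ∀ a, (f a : T.H U) = G.c M ^ 2 * a := fun a => rfl
  have hinj : Function.Injective f := by
    rw [injective_iff_map_eq_zero]
    intro a ha
    apply Subtype.ext
    have h1 := congrArg Subtype.val ha
    rw [hf] at h1
    exact G.hard_inj M (i := 2 * (n - 1)) (k := 2) (by omega) _ (R.deg a.2) h1
  constructor
  · intro hmid
    have hsurj : Function.Surjective f := by
      rintro ⟨b, hb⟩
      have hb' : b ∈ R.A U (n + 1) := hb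
      obtain ⟨e, he, heb⟩ := G.hard_surj M (i := 2 * (n - 1)) (k := 2) (by omega) b
        (T.deg_of_eq (R.deg hb') (by omega))
      exact ⟨⟨e, hmid e he (by rw [heb]; exact hb')⟩, Subtype.ext heb⟩
    exact (LinearEquiv.ofBijective f ⟨hinj, hsurj⟩).finrank_eq
  · intro hrk ξ hξ hk
    have hsurj : Function.Surjective f :=
      (LinearMap.injective_iff_surjective_of_finrank_eq_finrank hrk).mp hinj
    obtain ⟨e, he⟩ := hsurj ⟨_, hk⟩
    have h1 : G.c M ^ 2 * (e : T.H U) = G.c M ^ 2 * ξ := congrArg Subtype.val he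
    have h2 : (e : T.H U) = ξ := by
      rw [← sub_eq_zero]
      apply G.hard_inj M (i := 2 * (n - 1)) (k := 2) (by omega)
      · exact sub_mem (R.deg e.2) hξ
      · rw [mul_sub, h1, sub_self]
    rw [← h2]
    exact e.2

end Pool.Std
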