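import Pool.Agent.Work.StdConj01.Final
import Pool.Agent.Work.MP_a60482_pf.Api
import Pool.Agent.Work.MP_a60482_pf.Mid
import Pool.Agent.Work.MP_a60482_pf.Reach

/-!
The Kuenneth standard conjecture is equivalent to the Lefschetz standard conjecture over a
subfield, for instance over the algebraic closure of the prime field.
-/

open CategoryTheory MonoidalCategory CartesianMonoidalCategory

universe u v w x b

namespace Pool.Std

variable {V : Type u} [Category.{v} V] [CartesianMonoidalCategory V] {K : Type x} [Field K]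
variable {D : WeilCoh.{u, v, w, x} V K} {G : Polarization.{u, v, w, x, b} D}

theorem WeilCoh.full (h : D.IsWeil) (hK : D.CoefficientsIn K) : (WeilCoh.toCyc h).Full :=
  fun X j q a ha => hK.smul X j q a ha

theorem Cyc.Full.div {T : Pool.KC.WeilTheory.{u, v, w, x} V K} {R : Cyc T} (hK : R.Full) :
    R.Div := fun _ _ _ Y i e he => hK Y i _ e he

theorem WeilCoh.rank_eq (h : D.IsWeil) (hK : D.CoefficientsIn K) (X : V) (j : ℕ) :
    D.rank X j = Module.finrank K ((WeilCoh.full h hK).sub X j) := by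
  have h1 : Submodule.span K (D.alg X j : Set (D.H X)) = (WeilCoh.full h hK).sub X j := by
    apply le_antisymm
    · rw [Submodule.span_le]
      exact fun a ha => ha
    · exact fun a ha => Submodule.subset_span ha
  rw [WeilCoh.rank, Set.finrank, h1]

namespace Polarization

theorem Fibre.toFib (h : D.IsWeil) (hP : G.IsPolarized) {U W : V} {L : G.Bund W} {i : U ⟶ W}
    (hF : G.Fibre L i) : ∃ c, Fib (toPl h hP) (U := U) (W := W) L i c := by
  obtain ⟨hd, c, hc, h1, h2, h3, h4⟩ := hF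
  exact ⟨c, hd, hc, h1, h2, h3, h4⟩

variable [CharZero K]

theorem VeryGeneralFibre.spr (h : D.IsWeil) (hP : G.IsPolarized)
    {C : ∀ W : V, G.Bund W → Prop} {U : V} {M : G.Bund U} (hs : G.VeryGeneralFibre C M) :
    Spr (toPl h hP) C (U := U) M := by
  intro j f hf
  obtain ⟨W, L, i, hW, hF, ⟨r, hr, hM⟩, e, he, hef⟩ := hs j f hf
  obtain ⟨c, hc⟩ := hF.toFib h hP
  exact ⟨W, L, i, c, (r : K), hW, hc, Rat.cast_ne_zero.mpr hr, hM, e, he, hef⟩

/-- `B` for the varieties in `P` gives `C` for all varieties -/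
theorem conjC_of_generated (h : D.IsWeil) (hK : D.CoefficientsIn K) (hP : G.IsPolarized)
    {P : V → Prop} (hgen : G.GeneratedBy P)
    (hB : ∀ (X : V) (M : G.Bund X), P X → G.ConjB M) (X : V) : D.ConjC X := by
  obtain ⟨C, h0, hs, hdom⟩ := hgen
  have hfull := WeilCoh.full h hK
  have h1 := lefB_of_tower (G := toPl h hP) hfull C
    (fun X M hX => (conjB_iff h hP M).mp (hB X M (h0 X M hX)))
    (fun r X M hX => (hs r X M hX).spr h hP)
  obtain ⟨r, Y, M, i, hY, hd, d, hd0, hi⟩ := hdom X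
  rw [WeilCoh.conjC_iff h]
  exact kunneth_descend hfull i hd (Rat.cast_ne_zero.mpr hd0) hi
    ((toPl h hP).kunneth_of_lefB M (h1 r Y M hY))

/-- the rank condition, from `B` -/
theorem rank_of_conjB (h : D.IsWeil) (hK : D.CoefficientsIn K) (hP : G.IsPolarized) {U : V}
    {M : G.Bund U} (hB : G.ConjB M) {n : ℕ} (hn : 1 ≤ n) (hU : D.dim U = 2 * n) :
    D.rank U (n - 1) = D.rank U (n + 1) := by
  rw [WeilCoh.rank_eq h hK, WeilCoh.rank_eq h hK]
  rw [← mid_iff_finrank (G := toPl h hP) (WeilCoh.full h hK) M hn hU]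
  intro ξ hξ hk
  have hA := lefA_of_lefB ((conjB_iff h hP M).mp hB)
  refine hA (n - 1) 2 ?_ ξ hξ ((WeilCoh.toCyc h).of_eq hk (by omega))
  change 2 * (n - 1) + 2 = D.dim U
  omega

theorem mid_of_rank (h : D.IsWeil) (hK : D.CoefficientsIn K) (hP : G.IsPolarized) {U : V}
    (M : G.Bund U) {n : ℕ} (hn : 1 ≤ n) (hU : D.dim U = 2 * n)
    (hr : D.rank U (n - 1) = D.rank U (n + 1)) :
    ∀ ξ ∈ (WeilCoh.toWeil h).deg U (2 * (n - 1)),
      (toPl h hP).c (X := U) M ^ 2 * ξ ∈ (WeilCoh.toCyc h).A U (n + 1) →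
        ξ ∈ (WeilCoh.toCyc h).A U (n - 1) := by
  rw [WeilCoh.rank_eq h hK, WeilCoh.rank_eq h hK] at hr
  exact (mid_iff_finrank (G := toPl h hP) (WeilCoh.full h hK) M hn hU).mpr hr

/-- **The equivalences.** -/
theorem tfae_prime (h : D.IsWeil) (hK : D.CoefficientsIn K) (hc : D.Connected)
    (hP : G.IsPolarized) (hH : G.HasHypersurfaces) (hS : G.HasSections) {P : V → Prop}
    (hgen : G.GeneratedBy P) (hcl : G.Closed P) :
    [∀ X : V, D.ConjC X,
      ∀ X : V, D.SignConj X,
      ∀ (X : V) (M : G.Bund X), G.ConjB M,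
      ∀ (X : V) (M : G.Bund X), P X → G.ConjB M,
      ∀ n ≥ 1, ∀ U : V, P U → D.dim U = 2 * n → D.rank U (n - 1) = D.rank U (n + 1),
      ∀ X : V, P X → D.ConjC X ∧
        (1 ≤ D.dim X → D.rank (X ⊗ X) (D.dim X - 1) = D.rank (X ⊗ X) (D.dim X + 1))].TFAE := by
  have hfull := WeilCoh.full h hK
  have hsq : ∀ X : V, D.dim (X ⊗ X) = 2 * D.dim X := by
    intro X
    rw [h.kunneth.dim]
    omega
  tfae_have 1 → 2 := fun hC X => sign_of_conjC h (hC X)
  tfae_have 2 → 3 := fun hs => ((tfae_all h hK hc hP hH hS).out 2 0).mp hs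
  tfae_have 3 → 4 := fun hB X M _ => hB X M
  tfae_have 4 → 1 := fun hB X => conjC_of_generated h hK hP hgen hB X
  tfae_have 4 → 5 := by
    intro hB n hn U hU hd
    obtain ⟨M⟩ := hP.exists_bundle U
    exact rank_of_conjB h hK hP (hB U M hU) hn hd
  tfae_have 5 → 4 := by
    intro hr X M hX
    rw [conjB_iff h hP]
    refine lefB_of_mid_class (G := toPl h hP) hfull.div hc P hcl.prod ?_ ?_ X M hX
    · intro X M hX hd
      obtain ⟨Y, i, hY, hH⟩ := hcl.hypersurface X M hX hd
      exact ⟨hH.toHyp h hP, hY⟩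
    · intro U M n hn hU hd
      exact mid_of_rank h hK hP M hn hd (hr n hn U hU hd)
  tfae_have 4 → 6 := by
    intro hB X hX
    obtain ⟨M⟩ := hP.exists_bundle X
    refine ⟨conjC_of_lefB h hP ((conjB_iff h hP M).mp (hB X M hX)), fun hd => ?_⟩
    obtain ⟨N⟩ := hP.exists_bundle (X ⊗ X)
    exact rank_of_conjB h hK hP (hB _ N (hcl.prod X X hX hX)) hd (hsq X)
  tfae_have 6 → 4 := by
    intro h6 X M hX
    obtain ⟨hC, hr⟩ := h6 X hX
    rw [conjB_iff h hP]
    rcases Nat.eq_zero_or_pos (D.dim X) with h0 | h0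
    · exact lefB_point (G := toPl h hP) (X := X) M h0
    · exact lefB_of_kunneth_mid (G := toPl h hP) (X := X) M ((WeilCoh.conjC_iff h X).mp hC)
        (mid_of_rank h hK hP (G.box M M) h0 (hsq X) (hr h0))
  tfae_finish

end Polarization

end Pool.Std
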