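import Pool.Agent.Work.StdConj.Lef

/-!
Smooth fibres of a morphism to a curve: the Lefschetz conjecture `A` for the total space gives
the conjecture `A` for the algebraic classes of the fibre which extend to the total space.
-/

open CategoryTheory MonoidalCategory CartesianMonoidalCategory

universe u v w x b

namespace Pool.Std

open Pool.KC

variable {V : Type u} [Category.{v} V] [CartesianMonoidalCategory V] {K : Type x} [Field K]
variable {T : WeilTheory.{u, v, w, x} V K} {R : Cyc T} {G : Pl.{u, v, w, x, b} R}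

/-- the image of the multiplication by a class of even degree -/
theorem range_of_orth' {X : V} {m : ℕ} {l : T.H X} (hl : l ∈ T.deg X (2 * m)) {s t r : ℕ}
    (hst : s = t + 2 * m) (hsr : s + r = 2 * T.dim X) {a : T.H X} (ha : a ∈ T.deg X s)
    (h : ∀ x ∈ T.deg X r, l * x = 0 → T.tr X (a * x) = 0) : ∃ e ∈ T.deg X t, l * e = a := by
  by_contra hcon
  have hnot : a ∉ (T.deg X t).map (LinearMap.mulLeft K l) := by
    rintro ⟨e, he, hea⟩
    exact hcon ⟨e, he, hea⟩
  obtain ⟨f, hf, hf0⟩ := Submodule.exists_dual_map_eq_bot_of_notMem hnot inferInstance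
  obtain ⟨y, rfl⟩ := (T.dualEquiv X).surjective f
  rw [T.dualEquiv_apply] at hf
  rw [← T.tr_proj_mul y ha hsr] at hf
  apply hf
  apply h _ (T.proj_mem r y)
  apply T.eq_zero_of_deg (T.mul_deg hl (T.proj_mem r y))
  intro j hj e he
  have he' : e ∈ T.deg X t := T.deg_of_eq he (by omega)
  have h1 : l * e ∈ (T.deg X t).map (LinearMap.mulLeft K l) := ⟨e, he', rfl⟩
  have h2 : T.dualEquiv X y (l * e) = 0 := by
    have h3 : T.dualEquiv X y (l * e) ∈
        ((T.deg X t).map (LinearMap.mulLeft K l)).map (T.dualEquiv X y) := ⟨_, h1, rfl⟩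
    rw [hf0, Submodule.mem_bot] at h3
    exact h3
  rw [T.dualEquiv_apply] at h2
  have h4 : l * e ∈ T.deg X s := T.deg_of_eq (T.mul_deg hl he') (by omega)
  rw [← mul_assoc, ← T.even_comm hl, T.tr_proj_mul y h4 hsr, h2]

/-- a smooth fibre `U` of a morphism of `W` to a curve; `h` is its class -/
structure Fib (G : Pl.{u, v, w, x, b} R) {U W : V} (L : G.Bund W) (i : U ⟶ W)
    (h : T.H W) : Prop where
  dim : T.dim U + 1 = T.dim W
  mem : h ∈ R.A W 1
  sq : h * h = 0
  tr : ∀ a, T.tr U (T.pull i a) = T.tr W (h * a)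
  ker : ∀ a, h * a = 0 → T.pull i a = 0
  rel : ∀ s k : ℕ, s + k = T.dim W → ∀ a ∈ T.deg W s, h * a = 0 →
    (∃ b, G.c L ^ k * a = h * b) → ∃ b, a = h * b

/-- the classes of degree `2 j - 2` -/
def low (T : WeilTheory.{u, v, w, x} V K) (W : V) : ℕ → Submodule K (T.H W)
  | 0 => ⊥
  | j + 1 => T.deg W (2 * j)

theorem low_mul {W : V} {c : T.H W} (hc : c ∈ T.deg W (2 * 1)) {j : ℕ} {a : T.H W}
    (ha : a ∈ low T W j) : c * a ∈ T.deg W (2 * j) := by
  cases j with
  | zero =>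
    have h0 : a = 0 := (Submodule.mem_bot K).mp ha
    rw [h0, mul_zero c]
    exact (T.deg W (2 * 0)).zero_mem
  | succ j => exact T.deg_of_eq (T.mul_deg hc ha) (by omega)

/-- coefficients in `K` -/
def Cyc.Full (R : Cyc T) : Prop :=
  ∀ (X : V) (j : ℕ) (q : K), ∀ a ∈ R.A X j, q • a ∈ R.A X j

namespace Fib

variable {U W : V} {L : G.Bund W} {i : U ⟶ W} {h : T.H W} (F : Fib G L i h)

include F

theorem hdeg : h ∈ T.deg W (2 * 1) := R.deg F.mem

theorem comm (a : T.H W) : h * a = a * h := T.even_comm F.hdeg a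

theorem mul_left (a b : T.H W) : h * (a * b) = a * (h * b) := by
  rw [← mul_assoc, F.comm a, mul_assoc]

theorem mul_self (a : T.H W) : h * (h * a) = 0 := by
  rw [← mul_assoc, F.sq, zero_mul]

theorem of_pull {a : T.H W} (ha : T.pull i a = 0) : h * a = 0 := by
  apply T.nondeg
  intro e
  rw [← F.mul_left, ← F.tr, map_mul, ha, mul_zero, map_zero]

theorem pull_eq {a e : T.H W} (hae : h * a = h * e) : T.pull i a = T.pull i e := by
  rw [← sub_eq_zero, ← map_sub]
  apply F.ker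
  rw [mul_sub, hae, sub_self]

theorem mul_low {j : ℕ} {a : T.H W} (ha : a ∈ low T W j) : h * a ∈ T.deg W (2 * j) :=
  low_mul F.hdeg ha

section

variable {M : G.Bund U} {r : K} (hr : r ≠ 0) (hM : T.pull i (G.c L) = r • G.c M)

include hr hM

/-- hard Lefschetz on the fibre: injectivity -/
theorem inj {s q : ℕ} (hsq : s + q = T.dim U) {a : T.H W} (ha : a ∈ T.deg W s)
    (h0 : h * (G.c L ^ q * a) = 0) : h * a = 0 := by
  apply F.of_pull
  have h1 := F.ker _ h0
  rw [map_mul, map_pow, hM, smul_pow, smul_mul_assoc] at h1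
  exact G.hard_inj M hsq _ (T.pull_deg _ ha)
    ((smul_eq_zero.mp h1).resolve_left (pow_ne_zero _ hr))

/-- hard Lefschetz on the fibre: surjectivity -/
theorem surj {s q : ℕ} (hsq : s + q = T.dim U) {e : T.H W} (he : e ∈ T.deg W (s + 2 * q)) :
    ∃ a ∈ T.deg W s, h * (G.c L ^ q * a) = h * e := by
  have hd := F.dim
  have hl : h * G.c L ^ q ∈ T.deg W (2 * (q + 1)) :=
    T.deg_of_eq (T.mul_deg F.hdeg (G.c_pow_deg L q)) (by omega)
  have he' : h * e ∈ T.deg W (s + 2 * (q + 1)) :=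
    T.deg_of_eq (T.mul_deg F.hdeg he) (by omega)
  obtain ⟨a, ha, hae⟩ := range_of_orth' hl (t := s) (r := s) rfl (by omega) he' (by
    intro y hy hy0
    rw [mul_assoc] at hy0
    have h1 := F.inj hr hM hsq hy hy0
    rw [F.comm e, mul_assoc, h1, mul_zero, map_zero])
  exact ⟨a, ha, by rw [← mul_assoc, hae]⟩

theorem inj_low {j k : ℕ} (hjk : 2 * j + k = T.dim U) {a : T.H W} (ha : a ∈ low T W j)
    (h0 : h * (G.c L ^ (k + 2) * a) = 0) : h * a = 0 := by
  cases j with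
  | zero =>
    have h1 : a = 0 := (Submodule.mem_bot K).mp ha
    rw [h1, mul_zero]
  | succ j => exact F.inj hr hM (q := k + 2) (by omega) ha h0

theorem surj_low {j k : ℕ} (hjk : 2 * j + k = T.dim U) {e : T.H W}
    (he : e ∈ T.deg W (2 * j + 2 * (k + 1))) :
    ∃ a ∈ low T W j, h * (G.c L ^ (k + 2) * a) = h * e := by
  have hd := F.dim
  cases j with
  | zero =>
    refine ⟨0, zero_mem _, ?_⟩
    have h1 : h * e ∈ T.deg W (2 * 1 + (2 * 0 + 2 * (k + 1))) := T.mul_deg F.hdeg he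
    rw [T.deg_eq_zero h1 (by omega), mul_zero, mul_zero]
  | succ j =>
    exact F.surj hr hM (s := 2 * j) (q := k + 2) (by omega) (T.deg_of_eq he (by omega))

end

/-- relative hard Lefschetz -/
theorem rel_low {j k : ℕ} (hjk : 2 * j + k = T.dim U) {a : T.H W} (ha : a ∈ T.deg W (2 * j))
    (h0 : h * a = 0) (h1 : ∃ b, G.c L ^ (k + 1) * a = h * b) : ∃ b ∈ low T W j, a = h * b := by
  have hd := F.dim
  obtain ⟨b, hb⟩ := F.rel (2 * j) (k + 1) (by omega) a ha h0 h1
  cases j with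
  | zero =>
    refine ⟨0, zero_mem _, ?_⟩
    rw [mul_zero, ← T.proj_same ha, hb]
    refine T.hind (P := fun b => T.proj W (2 * 0) (h * b) = 0) (by simp) ?_ ?_ b
    · intro t b hb
      exact T.proj_ne (T.mul_deg F.hdeg hb) (by omega)
    · intro b b' h2 h3
      rw [mul_add, map_add, h2, h3, add_zero]
  | succ j =>
    refine ⟨T.proj W (2 * j) b, T.proj_mem _ _, ?_⟩
    rw [← T.proj_same ha, hb]
    refine T.hind (P := fun b => T.proj W (2 * (j + 1)) (h * b) = h * T.proj W (2 * j) b)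
      (by simp) ?_ ?_ b
    · intro t b hb
      by_cases ht : t = 2 * j
      · subst ht
        rw [T.proj_same hb, T.proj_same (T.deg_of_eq (T.mul_deg F.hdeg hb) (by omega))]
      · rw [T.proj_ne hb ht, mul_zero]
        exact T.proj_ne (T.mul_deg F.hdeg hb) (by omega)
    · intro b b' h2 h3
      rw [mul_add h b b', map_add, map_add, mul_add h, h2, h3]

/-- **Main lemma.**  If the class `ξ` on `W` of degree `2 j` is algebraic whenever `L^(k+1) ξ` is
(`2 j + k + 1 = dim W`), then for every algebraic class `g` on `W` of codimension `j + k` there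
is an algebraic class `ξ` of codimension `j` with `L^k ξ = g` on the fibre. -/
theorem core {M : G.Bund U} {r : K} (hr : r ≠ 0) (hM : T.pull i (G.c L) = r • G.c M)
    (hK : R.Full) {j k : ℕ} (hjk : 2 * j + k = T.dim U)
    (hA : ∀ x ∈ T.deg W (2 * j), G.c L ^ (k + 1) * x ∈ R.A W (j + k + 1) → x ∈ R.A W j)
    {g : T.H W} (hg : g ∈ R.A W (j + k)) :
    ∃ ξ ∈ R.A W j, h * (G.c L ^ k * ξ) = h * g := by
  have hd := F.dim
  set c := G.c L with hc
  have hcd : c ∈ T.deg W (2 * 1) := G.c_deg L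
  have hcpow : ∀ q, c ^ q ∈ T.deg W (2 * q) := fun q => G.c_pow_deg L q
  have hk1 : ∀ w, c ^ (k + 1) * w = c ^ k * (c * w) := fun w => by rw [pow_succ, mul_assoc]
  have hk2 : ∀ w, c ^ (k + 2) * w = c ^ (k + 1) * (c * w) := fun w => by
    rw [pow_succ, mul_assoc]
  obtain ⟨Ti, hT1, hT2⟩ := (G.hard L).exists_inv hcd (i := 2 * j) (k := k + 1) (by omega)
  have hT3 : ∀ a ∈ T.deg W (2 * j + 2 * (k + 1)), Ti a ∈ T.deg W (2 * j) := by
    intro a ha
    obtain ⟨e, he, hea⟩ := G.hard_surj L (i := 2 * j) (k := k + 1) (by omega) a ha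
    rw [← hea, hT1 e he]
    exact he
  -- the space of primitive algebraic classes
  let DS : Submodule K (T.H W) :=
    { carrier := R.A W j
      add_mem' := fun ha hb => add_mem ha hb
      zero_mem' := zero_mem _
      smul_mem' := fun q a ha => hK W j q a ha }
  have hDS : ∀ a, a ∈ DS ↔ a ∈ R.A W j := fun a => Iff.rfl
  let P : Submodule K (T.H W) := T.deg W (2 * j) ⊓ LinearMap.ker (LinearMap.mulLeft K
    (h * c ^ (k + 1)))
  have hP : ∀ a, a ∈ P ↔ a ∈ T.deg W (2 * j) ∧ h * (c ^ (k + 1) * a) = 0 := by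
    intro a
    rw [Submodule.mem_inf, LinearMap.mem_ker, LinearMap.mulLeft_apply, mul_assoc]
  let E : Submodule K (T.H W) := (DS ⊓ P).map (LinearMap.mulLeft K h)
  have hEm : ∀ a, a ∈ R.A W j → a ∈ P → h * a ∈ E := fun a h1 h2 => ⟨a, ⟨h1, h2⟩, rfl⟩
  let S : Module.End K (T.H W) :=
    LinearMap.mulLeft K h ∘ₗ Ti ∘ₗ LinearMap.mulLeft K (c ^ k)
  have hS : ∀ a, S a = h * Ti (c ^ k * a) := fun a => rfl
  -- the operator `R`
  have hR1 : ∀ a ∈ T.deg W (2 * j), c ^ k * (h * a) ∈ T.deg W (2 * j + 2 * (k + 1)) :=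
    fun a ha => T.deg_of_eq (T.mul_deg (hcpow k) (T.mul_deg F.hdeg ha)) (by omega)
  have hR2 : ∀ a ∈ T.deg W (2 * j), Ti (c ^ k * (h * a)) ∈ P := by
    intro a ha
    rw [hP]
    refine ⟨hT3 _ (hR1 a ha), ?_⟩
    rw [hT2 _ (hR1 a ha), F.mul_left, F.mul_self, mul_zero]
  have hR3 : ∀ a ∈ R.A W j, Ti (c ^ k * (h * a)) ∈ R.A W j := by
    intro a ha
    have h1 := R.deg ha
    apply hA _ (hT3 _ (hR1 a h1))
    rw [hT2 _ (hR1 a h1)]
    exact R.of_eq (R.mul (G.c_pow_mem L k) (R.mul F.mem ha)) (by omega)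
  have hR4 : ∀ a ∈ R.A W j, S (h * a) ∈ E := fun a ha => hEm _ (hR3 a ha) (hR2 a (R.deg ha))
  have hSE : ∀ e ∈ E, S e ∈ E := by
    rintro _ ⟨a, ⟨h1, -⟩, rfl⟩
    exact hR4 a h1
  -- injectivity
  have hinj : ∀ p ∈ P, S (h * p) = 0 → h * p = 0 := by
    intro p hp h0
    obtain ⟨hp1, hp2⟩ := (hP p).mp hp
    have h1 := hT2 _ (hR1 p hp1)
    obtain ⟨w, hw, hyw⟩ := F.rel_low hjk (hT3 _ (hR1 p hp1)) h0
      ⟨c ^ k * p, by rw [← hc, h1, F.mul_left]⟩
    rw [hyw] at h1
    have h2 : h * (c ^ k * (c * w - p)) = 0 := by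
      rw [F.mul_left, mul_sub h, mul_sub, ← h1, F.mul_left c w, ← hk1, sub_self]
    have h3 := F.inj hr hM hjk (sub_mem (low_mul hcd hw) hp1) h2
    rw [mul_sub, sub_eq_zero] at h3
    have h4 : h * w = 0 := by
      apply F.inj_low hr hM hjk hw
      rw [← hc, hk2 w, F.mul_left, h3, ← F.mul_left, hp2]
    rw [← h3, F.mul_left, h4, mul_zero]
  have key : ∀ p ∈ P, S (h * p) ∈ E → h * p ∈ E := by
    intro p hp hpE
    let S' : Module.End K E := S.restrict hSE
    have hS' : ∀ e : E, ((S' e : E) : T.H W) = S e := fun e => rfl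
    have hi : Function.Injective S' := by
      rw [injective_iff_map_eq_zero]
      rintro ⟨_, a, ⟨h1, h2⟩, rfl⟩ h3
      apply Subtype.ext
      have h4 := congrArg Subtype.val h3
      rw [hS'] at h4
      exact hinj a h2 h4
    obtain ⟨⟨_, a, ⟨h1, h2⟩, rfl⟩, hae⟩ := LinearMap.surjective_of_injective hi
      (⟨S (h * p), hpE⟩ : E)
    have h3 : S (h * a) = S (h * p) := congrArg Subtype.val hae
    have h4 : h * (p - a) = 0 := by
      apply hinj _ (sub_mem hp h2)
      rw [mul_sub, map_sub, h3, sub_self]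
    rw [mul_sub, sub_eq_zero] at h4
    rw [h4]
    exact hEm a h1 h2
  -- decomposition of `g`
  obtain ⟨a, ha, hag⟩ := F.surj hr hM hjk (T.deg_of_eq (R.deg hg) (by omega) :
    g ∈ T.deg W (2 * j + 2 * k))
  obtain ⟨w, hw, hwa⟩ := F.surj_low hr hM hjk
    (T.deg_of_eq (T.mul_deg (hcpow (k + 1)) ha) (by omega) :
      c ^ (k + 1) * a ∈ T.deg W (2 * j + 2 * (k + 1)))
  rw [← hc] at hag hwa
  have hcw := low_mul hcd hw
  have hhw := F.mul_low hw
  set p := a - c * w with hp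
  have hpP : p ∈ P := by
    rw [hP]
    refine ⟨sub_mem ha hcw, ?_⟩
    rw [hp, mul_sub, mul_sub, ← hk2, hwa, sub_self]
  have hpdeg := ((hP p).mp hpP).1
  have hgp : h * g = h * (c ^ k * p) + h * (c ^ (k + 1) * w) := by
    rw [← mul_add, hk1, ← mul_add, hp, sub_add_cancel, hag]
  -- step one: `h p` is in `E`
  have hs1 : h * p ∈ E := by
    apply key p hpP
    have h1 : Ti (h * g) ∈ R.A W j := by
      have h2 : h * g ∈ T.deg W (2 * j + 2 * (k + 1)) :=
        T.deg_of_eq (T.mul_deg F.hdeg (R.deg hg)) (by omega)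
      apply hA _ (hT3 _ h2)
      rw [hT2 _ h2]
      exact R.of_eq (R.mul F.mem hg) (by omega)
    have h3 : Ti (h * g) = Ti (c ^ k * (h * p)) + h * w := by
      rw [hgp, map_add, F.mul_left, F.mul_left (c ^ (k + 1)), hT1 _ hhw]
    have h4 : Ti (h * g) ∈ P := by
      rw [h3]
      refine add_mem (hR2 p hpdeg) ?_
      rw [hP]
      exact ⟨hhw, by rw [F.mul_left, F.mul_self, mul_zero]⟩
    have h5 : S (h * p) = h * Ti (h * g) := by
      rw [hS, h3, mul_add, F.mul_self, add_zero]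
    rw [h5]
    exact hEm _ h1 h4
  obtain ⟨p₁, ⟨hp₁, hp₁P⟩, hpp₁⟩ := hs1
  have hpp : h * p₁ = h * p := hpp₁
  have hp₁' : p₁ ∈ R.A W j := hp₁
  -- step two
  set g' := g - c ^ k * p₁ with hg'
  have hg'm : g' ∈ R.A W (j + k) :=
    sub_mem hg (R.of_eq (R.mul (G.c_pow_mem L k) hp₁') (by omega))
  have hg'w : h * g' = h * (c ^ (k + 1) * w) := by
    rw [hg', mul_sub, hgp, F.mul_left (c ^ k) p₁, hpp, F.mul_left (c ^ k) p, add_sub_cancel_left]
  have hcg : c * g' ∈ T.deg W (2 * j + 2 * (k + 1)) :=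
    T.deg_of_eq (T.mul_deg hcd (R.deg hg'm)) (by omega)
  set y := Ti (c * g') with hy
  have hyd : y ∈ T.deg W (2 * j) := hT3 _ hcg
  have hyc : c ^ (k + 1) * y = c * g' := hT2 _ hcg
  have hyA : y ∈ R.A W j := by
    apply hA _ hyd
    rw [hyc]
    exact R.of_eq (R.mul (G.c_mem L) hg'm) (by omega)
  set p' := y - c * w with hp'
  have hp'P : p' ∈ P := by
    rw [hP]
    refine ⟨sub_mem hyd hcw, ?_⟩
    rw [hp', mul_sub, mul_sub, hyc, F.mul_left, hg'w, ← hk2, ← F.mul_left, ← mul_assoc c,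
      ← pow_succ', sub_self]
  have hs2 : h * p' ∈ E := by
    apply key p' hp'P
    have h1 : S (h * p') = S (h * y) := by
      have h2 : S (h * (c * w)) = 0 := by
        rw [hS, F.mul_left, ← hk1, hT1 _ hhw, F.mul_self]
      rw [hp', mul_sub, map_sub, h2, sub_zero]
    rw [h1]
    exact hR4 y hyA
  obtain ⟨p₂, ⟨hp₂, -⟩, hpp₂⟩ := hs2
  have hpp2 : h * p₂ = h * p' := hpp₂
  have hp₂' : p₂ ∈ R.A W j := hp₂
  refine ⟨p₁ + (y - p₂), add_mem hp₁' (sub_mem hyA hp₂'), ?_⟩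
  have h1 : h * (y - p₂) = h * (c * w) := by
    rw [mul_sub, hpp2, hp', mul_sub, sub_sub_cancel]
  rw [F.mul_left, mul_add, hpp, h1, mul_add, ← F.mul_left, ← F.mul_left, ← hk1, ← hgp]

end Fib

end Pool.Std
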