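import Pool.Agent.Work.StdConj01.Lift
import Pool.Agent.Work.MP_a60482_pf.Core

/-!
The Lefschetz conjecture `A` for `X × X` implies the Lefschetz conjecture `B` for `X`.
-/

open CategoryTheory MonoidalCategory CartesianMonoidalCategory

universe u v w x b

namespace Pool.Std

open Pool.KC

variable {V : Type u} [Category.{v} V] [CartesianMonoidalCategory V] {K : Type x} [Field K]

/-- the Weil theory in which all classes of even degree are algebraic -/
@[reducible] def allT (T : WeilTheory.{u, v, w, x} V K) : WeilTheory.{u, v, w, x} V K where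
  toCohomology := T.toCohomology
  C X i := T.deg X (2 * i)
  C_deg _ _ := le_rfl
  C_one _ := T.one_deg
  C_mul := fun ha hb => T.deg_of_eq (T.mul_deg ha hb) (by omega)
  C_pull := fun f _ _ ha => T.pull_deg f ha
  C_push := fun ha => T.push_deg ha (by omega)
  diag := T.diag
  diag_spec := T.diag_spec
  C_diag := fun X => T.diag_deg X

/-- all classes of even degree -/
def allR (T : WeilTheory.{u, v, w, x} V K) : Cyc (allT T) where
  A X i := (T.deg X (2 * i)).toAddSubgroup
  le := fun ha => ha
  smul := fun _ _ ha => Submodule.smul_mem _ _ ha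
  one _ := T.one_deg
  mul := fun ha hb => T.deg_of_eq (T.mul_deg ha hb) (by omega)
  pull := fun f _ _ ha => T.pull_deg f ha
  push := by
    intro X Y i a ha
    exact T.push_deg ha (show 2 * (T.dim X + i) = 2 * T.dim X + 2 * i by omega)
  diag := fun X => T.diag_deg X

variable {T : WeilTheory.{u, v, w, x} V K} {R : Cyc T}

/-- the same line bundles -/
def allG (G : Pl.{u, v, w, x, b} R) : Pl.{u, v, w, x, b} (allR T) where
  Bund := G.Bund
  c := G.c
  c_mem := fun M => G.c_deg M
  box := G.box
  c_box := G.c_box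
  P1 := G.P1
  O1 := G.O1
  P_dim := G.P_dim
  P_tr := G.P_tr
  hard_inj := G.hard_inj
  hard_surj := G.hard_surj

variable {G : Pl.{u, v, w, x, b} R}

/-- the operator `Λ` of the `sl2`-triple exists in cohomology -/
theorem exists_isLam [CharZero K] {X : V} (M : G.Bund X) (hX : 1 ≤ T.dim X) :
    ∃ f : Module.End K (T.H X), G.IsLam M f := by
  obtain ⟨lam, h1, h2, h3⟩ := exists_lam (G := G) M
  obtain ⟨z, hz, hza⟩ := class_deg (T := T) (k := 2 * (T.dim X - 1)) (f := lam)
    (fun i hi a ha => h3 i (by omega) a ha)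
    (fun i l hil a ha => h2 l a (T.deg_of_eq ha (by omega)))
  have h4 : (allG G).LefB (X := X) M := by
    refine ⟨z, hz, ?_⟩
    intro i y hy
    have h5 := h1 i y hy
    rw [← hza] at h5
    exact h5
  obtain ⟨y, -, hl⟩ := (allG G).lef_of_lefB M h4
  exact ⟨T.act y, hl.zero, hl.deg, hl.comm⟩

/-- **The Lefschetz conjecture `A`** (for all classes): a class `ξ` of degree `2 j` is algebraic
if `L^k ξ` is, `2 j + k = dim X`. -/
def Pl.LefA (G : Pl.{u, v, w, x, b} R) {X : V} (M : G.Bund X) : Prop :=
  ∀ j k : ℕ, 2 * j + k = T.dim X → ∀ ξ ∈ T.deg X (2 * j), G.c M ^ k * ξ ∈ R.A X (j + k) →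
    ξ ∈ R.A X j

/-- `B` implies `A` -/
theorem lefA_of_lefB {X : V} {M : G.Bund X} (h : G.LefB M) : G.LefA M := by
  obtain ⟨z, hz, hl⟩ := h
  have hpow : ∀ (k s : ℕ), k ≤ T.dim X → ∀ a ∈ R.A X (s + k), ((T.act z) ^ k) a ∈ R.A X s := by
    intro k
    induction k with
    | zero => intro s _ a ha; simpa using ha
    | succ k ih =>
      intro s hk a ha
      rw [pow_succ', Module.End.mul_apply]
      exact R.act_mem hz (ih (s + 1) (by omega) a (R.of_eq ha (by omega))) (by omega)
  intro j k hjk ξ hξ hk
  have h1 := Pl.lam_pow hl (k := k) (j := 2 * j) (by omega) hξ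
  rw [← h1]
  exact hpow k j (by omega) _ hk

/-- the operator `Λ` of the `sl2`-triple preserves algebraic classes if `A` holds -/
theorem Pl.IsLam.alg (hK : R.Full) {X : V} {M : G.Bund X} (hA : G.LefA M)
    {lam : Module.End K (T.H X)} (hl : G.IsLam M lam) :
    ∀ (s : ℕ), ∀ a ∈ R.A X (s + 1), lam a ∈ R.A X s := by
  have low : ∀ (s : ℕ), 2 * (s + 1) ≤ T.dim X → ∀ a ∈ R.A X (s + 1), lam a ∈ R.A X s := by
    intro s
    induction s with
    | zero =>
      intro hs a ha
      obtain ⟨e, he, hea⟩ := G.hard_surj M (i := 0) (k := T.dim X) (by omega)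
        (G.c M ^ (T.dim X - 1) * a)
        (T.deg_of_eq (T.mul_deg (G.c_pow_deg M _) (R.deg ha)) (by omega))
      have heA : e ∈ R.A X 0 := by
        refine hA 0 (T.dim X) (by omega) e he ?_
        rw [hea]
        exact R.of_eq (R.mul (G.c_pow_mem M _) ha) (by omega)
      have hp : G.Prim M 2 (a - G.c M * e) := by
        refine ⟨by omega, sub_mem (R.deg ha) (T.deg_of_eq (T.mul_deg (G.c_deg M) he) (by omega)),
          ?_⟩
        rw [mul_sub, ← mul_assoc, ← pow_succ,
          show T.dim X - 2 + 1 + 1 = T.dim X by omega,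
          show T.dim X - 2 + 1 = T.dim X - 1 by omega, hea, sub_self]
      have h1 := hl.prim hp
      have h2 := hl.comm 0 e he
      rw [hl.zero 0 (by omega) e he, mul_zero, zero_sub] at h2
      rw [map_sub, sub_eq_zero] at h1
      rw [h1, ← neg_neg (lam _), h2]
      exact neg_mem (hK _ _ _ e heA)
    | succ s ih =>
      intro hs a ha
      obtain ⟨e, he, hea⟩ := G.hard_surj M (i := 2 * (s + 1)) (k := T.dim X - 2 * (s + 1))
        (by omega) (G.c M ^ (T.dim X - 2 * (s + 1) - 1) * a)
        (T.deg_of_eq (T.mul_deg (G.c_pow_deg M _) (R.deg ha)) (by omega))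
      have heA : e ∈ R.A X (s + 1) := by
        refine hA (s + 1) (T.dim X - 2 * (s + 1)) (by omega) e he ?_
        rw [hea]
        exact R.of_eq (R.mul (G.c_pow_mem M _) ha) (by omega)
      have hp : G.Prim M (2 * (s + 1 + 1)) (a - G.c M * e) := by
        refine ⟨by omega, sub_mem (R.deg ha) (T.deg_of_eq (T.mul_deg (G.c_deg M) he) (by omega)),
          ?_⟩
        rw [mul_sub, ← mul_assoc, ← pow_succ,
          show T.dim X - 2 * (s + 1 + 1) + 1 + 1 = T.dim X - 2 * (s + 1) by omega,
          show T.dim X - 2 * (s + 1 + 1) + 1 = T.dim X - 2 * (s + 1) - 1 by omega, hea,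
          sub_self]
      have h1 := hl.prim hp
      have h2 := hl.comm (2 * (s + 1)) e he
      rw [map_sub, sub_eq_zero] at h1
      rw [h1]
      have h3 : lam (G.c M * e) = G.c M * lam e -
          (((2 * (s + 1) : ℕ) : K) - T.dim X) • e := by
        rw [← h2, sub_sub_cancel]
      rw [h3]
      refine sub_mem ?_ (hK _ _ _ e heA)
      exact R.of_eq (R.mul (G.c_mem M) (ih (by omega) e heA)) (by omega)
  intro s a ha
  rcases Nat.lt_or_ge (T.dim X) (2 * (s + 1)) with h1 | h1
  · rcases Nat.lt_or_ge (T.dim X) (s + 1) with h2 | h2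
    · rw [R.eq_zero ha h2, map_zero]
      exact zero_mem _
    · obtain ⟨q, hq⟩ : ∃ q, 2 * (s + 1) = T.dim X + (q + 1) := ⟨2 * (s + 1) - T.dim X - 1, by omega⟩
      obtain ⟨j, hj⟩ : ∃ j, T.dim X = s + 1 + j := ⟨T.dim X - (s + 1), by omega⟩
      obtain ⟨e, he, hea⟩ := G.hard_surj M (i := 2 * j) (k := q + 1) (by omega) a
        (T.deg_of_eq (R.deg ha) (by omega))
      have heA : e ∈ R.A X j := by
        refine hA j (q + 1) (by omega) e he ?_
        rw [hea]
        exact R.of_eq ha (by omega)
      have h3 := hl.comm_pow q he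
      rw [hea] at h3
      have h4 : lam a = G.c M ^ (q + 1) * lam e -
          (((q : K) + 1) * (((2 * j : ℕ) : K) - T.dim X + q)) • (G.c M ^ q * e) := by
        rw [← h3, sub_sub_cancel]
      rw [h4]
      refine sub_mem ?_ (hK _ _ _ _ (R.of_eq (R.mul (G.c_pow_mem M q) heA) (by omega)))
      rcases Nat.eq_zero_or_pos j with hj0 | hj0
      · subst hj0
        rw [hl.zero _ (by omega) e he, mul_zero]
        exact zero_mem _
      · obtain ⟨j, rfl⟩ : ∃ j', j = j' + 1 := ⟨j - 1, by omega⟩
        exact R.of_eq (R.mul (G.c_pow_mem M (q + 1)) (low j (by omega) e heA)) (by omega)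
  · exact low s h1 a ha

/-- multiplication by the Chern class of a product, as operators -/
theorem act_box_mul {X Y : V} (N : G.Bund X) (M : G.Bund Y) (z : T.H (X ⊗ Y)) (a : T.H X) :
    T.act (G.c (G.box N M) * z) a = G.c M * T.act z a + T.act z (G.c N * a) := by
  rw [G.c_box, add_mul, T.act_add, LinearMap.add_apply, T.act_fst_mul,
    T.act_snd_mul (G.c_deg M), ← G.c_comm, add_comm]

/-- the operator `Λ` of the `sl2`-triple of `X × X` -/
theorem exists_square [CharZero K] {X : V} (M : G.Bund X) {f : Module.End K (T.H X)}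
    (hf : G.IsLam M f) : ∃ F : Module.End K (T.H (X ⊗ X)), G.IsLam (G.box M M) F ∧
      ∀ z a, T.act (F z) a = f (T.act z a) + T.act z (f a) := by
  let F : Module.End K (T.H (X ⊗ X)) := (T.actEquiv X X).symm.toLinearMap ∘ₗ
    (LinearMap.mulLeft K f + LinearMap.mulRight K f) ∘ₗ (T.actEquiv X X).toLinearMap
  have hF : ∀ z a, T.act (F z) a = f (T.act z a) + T.act z (f a) := by
    intro z a
    rw [← T.actEquiv_apply]
    change (T.actEquiv X X) ((T.actEquiv X X).symm _) a = _
    rw [LinearEquiv.apply_symm_apply, ← T.actEquiv_apply]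
    rfl
  have hf0 : ∀ j, j < 2 → ∀ a ∈ T.deg X j, f a = 0 := hf.zero
  have hd := T.dim_prod X X
  refine ⟨F, ⟨?_, ?_, ?_⟩, hF⟩
  · intro i hi z hz
    apply T.act_injective
    apply LinearMap.ext
    intro a
    rw [hF, T.act_zero, LinearMap.zero_apply]
    refine T.hind (P := fun a => f (T.act z a) + T.act z (f a) = 0) (by simp) ?_ ?_ a
    · intro s a ha
      have h1 : f (T.act z a) = 0 := by
        rcases Nat.lt_or_ge (s + i) (2 * T.dim X) with h2 | h2
        · rw [act_eq_zero T.toCohomology hz ha h2, map_zero]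
        · rcases Nat.lt_or_ge (2 * T.dim X) s with h3 | h3
          · rw [T.deg_eq_zero ha h3, map_zero, map_zero]
          · obtain ⟨l, hl⟩ : ∃ l, s + i = 2 * T.dim X + l := ⟨s + i - 2 * T.dim X, by omega⟩
            exact hf0 l (by omega) _ (T.act_deg hz hl ha)
      have h2 : T.act z (f a) = 0 := by
        rcases Nat.lt_or_ge s 2 with h3 | h3
        · rw [hf0 s h3 a ha, map_zero]
        · obtain ⟨s, rfl⟩ : ∃ s', s = s' + 2 := ⟨s - 2, by omega⟩
          rcases Nat.lt_or_ge (2 * T.dim X) (s + 2) with h4 | h4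
          · rw [T.deg_eq_zero ha h4, map_zero, map_zero]
          · exact act_eq_zero T.toCohomology hz (hf.deg s a ha) (by omega)
      rw [h1, h2, add_zero]
    · intro p q h1 h2
      rw [map_add, map_add, map_add, map_add, add_add_add_comm, h1, h2, add_zero]
  · intro i z hz
    obtain ⟨y, hy, hya⟩ := class_deg (T := T) (k := i) (f := T.act (F z)) (by
      intro s hs a ha
      rw [hF]
      have h1 : f (T.act z a) = 0 := by
        rcases Nat.lt_or_ge (s + (i + 2)) (2 * T.dim X) with h2 | h2
        · rw [act_eq_zero T.toCohomology hz ha h2, map_zero]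
        · obtain ⟨l, hl⟩ : ∃ l, s + (i + 2) = 2 * T.dim X + l :=
            ⟨s + (i + 2) - 2 * T.dim X, by omega⟩
          exact hf0 l (by omega) _ (T.act_deg hz hl ha)
      have h2 : T.act z (f a) = 0 := by
        rcases Nat.lt_or_ge s 2 with h3 | h3
        · rw [hf0 s h3 a ha, map_zero]
        · obtain ⟨s, rfl⟩ : ∃ s', s = s' + 2 := ⟨s - 2, by omega⟩
          exact act_eq_zero T.toCohomology hz (hf.deg s a ha) (by omega)
      rw [h1, h2, add_zero]) (by
      intro s l hsl a ha
      rw [hF]
      refine add_mem ?_ ?_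
      · exact hf.deg l _ (T.act_deg hz (by omega) ha)
      · rcases Nat.lt_or_ge s 2 with h3 | h3
        · rw [hf0 s h3 a ha, map_zero]
          exact zero_mem _
        · obtain ⟨s, rfl⟩ : ∃ s', s = s' + 2 := ⟨s - 2, by omega⟩
          exact T.act_deg hz (by omega) (hf.deg s a ha))
    have h1 : y = F z := T.act_injective hya
    rw [← h1]
    exact hy
  · intro i z hz
    apply T.act_injective
    apply LinearMap.ext
    intro a
    have hsub : ∀ z z' : T.H (X ⊗ X), T.act (z - z') = T.act z - T.act z' := by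
      intro z z'
      rw [← T.actEquiv_apply, map_sub, T.actEquiv_apply, T.actEquiv_apply]
    rw [hsub, LinearMap.sub_apply, act_box_mul, hF, hF, hF, act_box_mul, act_box_mul,
      T.act_smul, LinearMap.smul_apply]
    refine T.hind (P := fun a => G.c M * (f (T.act z a) + T.act z (f a)) +
      (f (T.act z (G.c M * a)) + T.act z (f (G.c M * a))) -
      (f (G.c M * T.act z a + T.act z (G.c M * a)) +
        (G.c M * T.act z (f a) + T.act z (G.c M * f a))) =
      ((i : K) - T.dim (X ⊗ X)) • T.act z a) (by simp) ?_ ?_ a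
    · intro s a ha
      rcases Nat.lt_or_ge (s + i) (2 * T.dim X) with h2 | h2
      · have e1 : T.act z a = 0 := act_eq_zero T.toCohomology hz ha h2
        have e2 : T.act z (f (G.c M * a)) - T.act z (G.c M * f a) = 0 := by
          have h3 := hf.comm s a ha
          rw [← map_sub, ← neg_sub, h3, map_neg, map_smul, e1, smul_zero, neg_zero]
        rw [e1]
        simp only [map_zero, mul_zero, smul_zero, zero_add]
        rw [← e2]
        abel
      · obtain ⟨l, hl⟩ : ∃ l, s + i = 2 * T.dim X + l := ⟨s + i - 2 * T.dim X, by omega⟩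
        have h3 := hf.comm s a ha
        have h4 := hf.comm l _ (T.act_deg hz hl ha)
        have e3 : T.act z (f (G.c M * a)) = T.act z (G.c M * f a) -
            ((s : K) - T.dim X) • T.act z a := by
          rw [← map_smul, ← h3, ← map_sub, sub_sub_cancel]
        have e4 : f (G.c M * T.act z a) = G.c M * f (T.act z a) -
            ((l : K) - T.dim X) • T.act z a := by
          rw [← h4, sub_sub_cancel]
        have e5 : (s : K) + i = 2 * T.dim X + l := by exact_mod_cast hl
        have e6 : (i : K) - T.dim (X ⊗ X) = ((l : K) - T.dim X) - ((s : K) - T.dim X) := by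
          rw [hd]
          push_cast
          linear_combination e5
        rw [map_add, e3, e4, e6, mul_add]
        module
    · intro p q h1 h2
      simp only [map_add, mul_add, smul_add] at h1 h2 ⊢
      rw [← h1, ← h2]
      abel

/-- **`A(X × X)` implies `B(X)`.** -/
theorem lefB_of_lefA [CharZero K] (hK : R.Full) {X : V} (M : G.Bund X)
    (hA : G.LefA (G.box M M)) : G.LefB M := by
  rcases Nat.eq_zero_or_pos (T.dim X) with h0 | h0
  · refine ⟨0, zero_mem _, ?_⟩
    intro i y _
    rw [T.act_zero]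
    exact ⟨rfl, fun j hj => by omega⟩
  · obtain ⟨f, hf⟩ := exists_isLam (G := G) M h0
    obtain ⟨F, hF, hFa⟩ := exists_square (G := G) M hf
    apply G.lefB_of_lef M
    have h1 : F (T.diag X) ∈ R.A (X ⊗ X) (T.dim X - 1) :=
      hF.alg hK hA (T.dim X - 1) _ (R.of_eq (R.diag X) (by omega))
    refine ⟨(2 : K)⁻¹ • F (T.diag X), hK _ _ _ _ h1, ?_⟩
    have h2 : T.act ((2 : K)⁻¹ • F (T.diag X)) = f := by
      apply LinearMap.ext
      intro a
      rw [T.act_smul, LinearMap.smul_apply, hFa, T.act_diag, LinearMap.id_apply,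
        LinearMap.id_apply, ← two_smul K, smul_smul, inv_mul_cancel₀ two_ne_zero, one_smul]
    rw [h2]
    exact hf

end Pool.Std
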