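import Pool.Agent.Work.StdConj.Hyper

/-!
The Kuenneth conjecture descends along generically finite morphisms.
-/

open CategoryTheory MonoidalCategory CartesianMonoidalCategory

universe u v w x b

namespace Pool.Std

open Pool.KC Pool.SL

variable {V : Type u} [Category.{v} V] [CartesianMonoidalCategory V] {K : Type x} [Field K]
variable {T : WeilTheory.{u, v, w, x} V K} {R : Cyc T}

/-- the class of the graph acts as push-forward, equal dimensions -/
theorem act_graph_same {X Y : V} (i : Y ⟶ X) {s : ℕ} {y : T.H Y} (hy : y ∈ T.deg Y s) {w : T.H X}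
    (hwd : w ∈ T.deg X s)
    (hw : ∀ a : T.H X, T.tr X (a * w) = T.tr Y (T.pull i a * y)) :
    T.act (T.pull (lift (fst Y X ≫ i) (snd Y X)) (T.diag X)) y = w := by
  have h0 : ∀ p : T.H X, T.tr Y (y * T.pull i p) = T.tr X (w * p) := by
    intro p
    refine T.hind (P := fun p => T.tr Y (y * T.pull i p) = T.tr X (w * p)) (by simp) ?_ ?_ p
    · intro t p hp
      rw [T.comm hy (T.pull_deg i hp), T.comm hwd hp, T.neg_pow_smul, T.neg_pow_smul, map_smul,
        map_smul, hw]
    · intro p q h1 h2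
      rw [map_add, mul_add, map_add, h1, h2, mul_add, map_add]
  have key : ∀ z : T.H (X ⊗ X),
      T.act (T.pull (lift (fst Y X ≫ i) (snd Y X)) z) y = T.act z w := by
    intro z
    refine T.kind (P := fun z => T.act (T.pull (lift (fst Y X ≫ i) (snd Y X)) z) y = T.act z w)
      (by simp [T.act_zero]) ?_ ?_ z
    · intro p q
      rw [map_mul, T.pull_comp', T.pull_comp', lift_fst, lift_snd, T.pull_comp (fst Y X) i,
        T.act_pure, T.act_pure, h0]
    · intro p q h1 h2
      rw [map_add, T.act_add, T.act_add, LinearMap.add_apply, LinearMap.add_apply, h1, h2]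
  rw [key, T.act_diag, LinearMap.id_apply]

/-- `C` descends along morphisms `f` of equal dimension with `f_* f^* = d`, `d ≠ 0` -/
theorem Cyc.KunnethC.descend [CharZero K] {X Y : V} (f : Y ⟶ X) (hd : T.dim Y = T.dim X) {d : ℚ}
    (hd0 : (d : K) ≠ 0) (htr : ∀ a, T.tr Y (T.pull f a) = (d : K) * T.tr X a)
    (h : R.KunnethC Y) : R.KunnethC X := by
  intro i
  obtain ⟨z, hz, h1, h2⟩ := h i
  set J : T.H Y →ₗ[K] T.H X :=
    T.act (T.pull (lift (fst Y X ≫ f) (snd Y X)) (T.diag X)) with hJ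
  have hJop : J ∈ R.Op Y X (T.dim X) := Cyc.act_mem_Op (R.pull _ (R.diag X))
  have hJf : ∀ {s : ℕ} {x : T.H X}, x ∈ T.deg X s → J (T.pull f x) = (d : K) • x := by
    intro s x hx
    refine act_graph_same f (T.pull_deg f hx) (Submodule.smul_mem _ _ hx) ?_
    intro a
    rw [← map_mul, htr, mul_smul_comm, map_smul, smul_eq_mul]
  have hop : ((d⁻¹ : ℚ) : K) • (J ∘ₗ (T.act z ∘ₗ (T.pull f).toLinearMap)) ∈
      R.Op X X (T.dim X) := by
    apply Cyc.Op_smul
    have e1 := Cyc.Op_comp (Cyc.Op_pull (R := R) f) (Cyc.act_mem_Op hz) (t := T.dim X) (by omega)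
    exact Cyc.Op_comp e1 hJop (by omega)
  obtain ⟨y, hy, hya⟩ := hop
  have hval : ∀ a, T.act y a = ((d⁻¹ : ℚ) : K) • J (T.act z (T.pull f a)) := by
    intro a
    rw [hya]
    rfl
  refine ⟨y, hy, ?_, ?_⟩
  · intro a ha
    rw [hval, h1 _ (T.pull_deg f ha), hJf ha, smul_smul, Rat.cast_inv, inv_mul_cancel₀ hd0,
      one_smul]
  · intro j hj a ha
    rw [hval, h2 j hj _ (T.pull_deg f ha), map_zero, smul_zero]

end Pool.Std
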