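import Pool.Agent.Work.MP_a60482_zo.Loc
import Pool.Agent.Work.MP_a60482_pf.Mid

/-!
`C(X)` and the surjectivity of `L^2 : C^(n-1)(X × X) → C^(n+1)(X × X)` imply `B(X)`.
-/

open CategoryTheory MonoidalCategory CartesianMonoidalCategory

universe u v w x b

namespace Pool.Std

open Pool.KC Pool.SL

variable {V : Type u} [Category.{v} V] [CartesianMonoidalCategory V] {K : Type x} [Field K]
variable {T : WeilTheory.{u, v, w, x} V K} [CharZero K] {R : Cyc T} {G : Pl.{u, v, w, x, b} R}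

/-- the projectors, as algebraic operators -/
theorem Cyc.KunnethC.proj_mem {X : V} (hC : R.KunnethC X) (j : ℕ) :
    T.proj X j ∈ R.Op X X (T.dim X) := by
  obtain ⟨z, hz, h1, h2⟩ := hC j
  refine ⟨z, hz, ?_⟩
  apply LinearMap.ext
  intro a
  refine T.hind (P := fun a => T.act z a = T.proj X j a) (by simp) ?_ ?_ a
  · intro k a ha
    by_cases hk : k = j
    · subst hk
      rw [h1 a ha, T.proj_same ha]
    · rw [h2 k hk a ha, T.proj_ne ha hk]
  · intro a e h3 h4
    rw [map_add, map_add, h3, h4]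

/-- `C(X)` and `Mid` for `X × X` imply `B(X)` -/
theorem lefB_of_kunneth_mid {X : V} (M : G.Bund X) (hC : R.KunnethC X)
    (hmid : Mid R (G.c (G.box M M))) : G.LefB M := by
  have hdim := T.dim_prod X X
  set n := T.dim X with hn
  set c := G.c M with hc
  rcases Nat.eq_zero_or_pos n with h0 | hX
  · refine ⟨0, zero_mem _, ?_⟩
    intro i y _
    rw [T.act_zero]
    exact ⟨rfl, fun j hj => by omega⟩
  have hcd : c ∈ T.deg X (2 * 1) := G.c_deg M
  have hcp : ∀ (t : ℕ) {i : ℕ} {a : T.H X}, a ∈ T.deg X i → c ^ t * a ∈ T.deg X (i + 2 * t) :=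
    fun t i a ha => T.deg_of_eq (T.mul_deg (G.c_pow_deg M t) ha) (by omega)
  have hpi : ∀ j : ℕ, T.proj X j ∈ R.Op X X n := fun j => hC.proj_mem j
  -- the operators `f_s`
  have hF : ∀ s : ℕ, ∃ f : Module.End K (T.H X), f ∈ R.Op X X (n - 1) ∧
      (1 ≤ s → s ≤ n →
      (∀ a ∈ T.deg X (n - s), f (c * a) = a) ∧
      (∀ a ∈ T.deg X (n - s), f (c ^ s * a) = (-1 : K) ^ (s - 1) • (c ^ (s - 1) * a)) ∧
      (∀ a ∈ T.deg X (n - s + 2), c ^ (s - 1) * a = 0 → f a = 0)) := by
    intro s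
    by_cases hs : 1 ≤ s ∧ s ≤ n
    · obtain ⟨hs1, hs2⟩ := hs
      obtain ⟨f, f1, f2, f3, f4, f5, f6⟩ := Loc.exists_f M hs1 hs2
      refine ⟨f, ?_, fun _ _ => ⟨f3, f4, f5⟩⟩
      have hop : T.proj X (n - s) + (((-1 : ℚ) ^ (s - 1) : ℚ) : K) • T.proj X (n + s) ∈
          R.Op X X n :=
        add_mem (hpi _) (Cyc.Op_smul _ (hpi _))
      refine lift_op_mid M M (m := n) hX (by omega) hmid hop ?_ ?_ ?_
      · intro i hi a ha
        exact f1 i (by omega) a ha
      · intro i l hil a ha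
        exact f2 l a (T.deg_of_eq ha (by omega))
      · intro a
        rw [f6 a, LinearMap.add_apply, LinearMap.smul_apply]
        push_cast
        rfl
    · exact ⟨0, zero_mem _, fun h1 h2 => absurd ⟨h1, h2⟩ hs⟩
  choose F hFop hF using hF
  set Λ : Module.End K (T.H X) :=
    ∑ d ∈ Finset.Icc 2 n, F (n + 2 - d) ∘ₗ T.proj X d +
      ∑ s ∈ Finset.Icc 1 n, (((-1 : ℚ) ^ (s - 1) : ℚ) : K) • (F s ∘ₗ T.proj X (n + s)) with hΛ
  have hΛop : Λ ∈ R.Op X X (n - 1) := by
    apply add_mem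
    · apply sum_mem
      intro d hd
      rw [Finset.mem_Icc] at hd
      exact Cyc.Op_comp (hpi d) (hFop _) (by omega)
    · apply sum_mem
      intro s hs
      rw [Finset.mem_Icc] at hs
      exact Cyc.Op_smul _ (Cyc.Op_comp (hpi _) (hFop _) (by omega))
  have hΛa : ∀ a, Λ a = ∑ d ∈ Finset.Icc 2 n, F (n + 2 - d) (T.proj X d a) +
      ∑ s ∈ Finset.Icc 1 n, (((-1 : ℚ) ^ (s - 1) : ℚ) : K) • F s (T.proj X (n + s) a) := by
    intro a
    rw [hΛ, LinearMap.add_apply, LinearMap.sum_apply, LinearMap.sum_apply]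
    rfl
  have hlow : ∀ d ≤ n, ∀ a ∈ T.deg X d, Λ a = if 2 ≤ d then F (n + 2 - d) a else 0 := by
    intro d hd a ha
    have e2 : ∑ s ∈ Finset.Icc 1 n, (((-1 : ℚ) ^ (s - 1) : ℚ) : K) •
        F s (T.proj X (n + s) a) = 0 := by
      apply Finset.sum_eq_zero
      intro s hs
      rw [Finset.mem_Icc] at hs
      rw [T.proj_ne ha (by omega), map_zero, smul_zero]
    rw [hΛa, e2, add_zero]
    split_ifs with h2
    · rw [Finset.sum_eq_single d]
      · rw [T.proj_same ha]
      · intro k _ hk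
        rw [T.proj_ne ha (Ne.symm hk), map_zero]
      · intro h
        exact absurd (Finset.mem_Icc.2 ⟨h2, hd⟩) h
    · apply Finset.sum_eq_zero
      intro k hk
      rw [Finset.mem_Icc] at hk
      rw [T.proj_ne ha (by omega), map_zero]
  have hhigh : ∀ s, 1 ≤ s → s ≤ n → ∀ a ∈ T.deg X (n + s),
      Λ a = (-1 : K) ^ (s - 1) • F s a := by
    intro s hs1 hs2 a ha
    have e2 : ∑ d ∈ Finset.Icc 2 n, F (n + 2 - d) (T.proj X d a) = 0 := by
      apply Finset.sum_eq_zero
      intro d hd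
      rw [Finset.mem_Icc] at hd
      rw [T.proj_ne ha (by omega), map_zero]
    rw [hΛa, e2, zero_add, Finset.sum_eq_single s]
    · rw [T.proj_same ha]
      push_cast
      rfl
    · intro k _ hk
      rw [T.proj_ne ha (by omega), map_zero, smul_zero]
    · intro h
      exact absurd (Finset.mem_Icc.2 ⟨hs1, hs2⟩) h
  obtain ⟨z, hz, hza⟩ := hΛop
  refine ⟨z, hz, ?_⟩
  rw [hza]
  intro i y hy
  obtain ⟨hi, hyi, hyk⟩ := hy
  constructor
  · rw [hlow i hi y hyi]
    split_ifs with h2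
    · apply (hF (n + 2 - i) (by omega) (by omega)).2.2 y (T.deg_of_eq hyi (by omega))
      rw [show n + 2 - i - 1 = n - i + 1 by omega]
      exact hyk
    · rfl
  · intro j hj
    have hjy : c ^ j * y ∈ T.deg X (i + 2 * j) := hcp j hyi
    have hjy' : c ^ (j + 1) * y ∈ T.deg X (i + 2 * (j + 1)) := hcp (j + 1) hyi
    rcases Nat.lt_or_ge n (i + 2 * (j + 1)) with h2 | h2
    · obtain ⟨s, hs⟩ : ∃ s, i + 2 * (j + 1) = n + s := ⟨i + 2 * (j + 1) - n, by omega⟩
      rw [hhigh s (by omega) (by omega) _ (T.deg_of_eq hjy' hs)]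
      have e1 : c ^ (j + 1) * y = c ^ s * (c ^ (j + 1 - s) * y) := by
        rw [← mul_assoc, ← pow_add, show s + (j + 1 - s) = j + 1 by omega]
      rw [e1, (hF s (by omega) (by omega)).2.1 _ (T.deg_of_eq (hcp (j + 1 - s) hyi) (by omega)),
        smul_smul, ← pow_add, ← two_mul, pow_mul, neg_one_sq, one_pow, one_smul, ← mul_assoc,
        ← pow_add, show s - 1 + (j + 1 - s) = j by omega]
    · rw [hlow _ h2 _ hjy', if_pos (by omega), pow_succ' c j, mul_assoc]
      exact (hF (n + 2 - (i + 2 * (j + 1))) (by omega) (by omega)).1 _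
        (T.deg_of_eq hjy (by omega))

end Pool.Std
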